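import Pool.Agent.Helper13.AM.Der
import Pool.Agent.Helper31.EC.DensS
import Pool.Agent.Helper31.EC.RobS
import Pool.Agent.Helper38.NS.Deg
import Pool.Agent.Helper95.RIG.Rs

/-! ALL DIMENSIONS, exact calculus: the axioms of a corner are stable under extensions; on events. -/

set_option autoImplicit false

namespace Pool.Agent.Helper13.AM

open Finset Filter Topology Pool.Agent.Helper69.RK Pool.Agent.Helper31.EC Pool.Agent.Helper31.EC.Sp
open Pool.Agent.Helper31.EC.QS
open Pool.Agent.Helper82.TP (Lit)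
open Pool.Agent.Helper57.TA (sc wgt)
open Pool.Agent.Helper40.EL (Lab Nul rp)

noncomputable section

/-! ### literal functions -/

theorem lit_pull {S T : Sp} (p : Pj T S) {β : ℕ → Type} {V : ∀ k, (S.F k).Ω → β k} {f : QS S} (h : Lit V f) :
    Lit (fun k ω => V k (p.π k ω)) (p.qs f) := by
  obtain ⟨g, rfl, h1⟩ := h
  refine ⟨p.tr g, rfl, ?_⟩
  filter_upwards [h1] with k hk ω ω' a b hZ hV
  exact hk _ _ (p.supp k ω a) (p.supp k ω' b) ((p.hZ k ω ω' a b).mp hZ) hV

theorem lit_rest {S : Sp} (E : ∀ k, (S.F k).Ω → Prop) (hE : 0 < ul (S.pr E)) {β : ℕ → Type}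
    {V : ∀ k, (S.F k).Ω → β k} {f : QS S} (h : Lit V f) : Lit (S := S.rest E) V (QS.rest E hE f) := by
  obtain ⟨g, rfl, h1⟩ := h
  refine ⟨TR.rest E g, rfl, ?_⟩
  filter_upwards [h1] with k hk ω ω' a b hZ hV
  exact hk ω ω' ((S.F k).rest_supp (E k) ω a).1 ((S.F k).rest_supp (E k) ω' b).1 hZ hV

theorem rest_pe {S : Sp} (E : ∀ k, (S.F k).Ω → Prop) (hE : 0 < ul (S.pr E)) {k : ℕ} (c : Fin (k + 1) → QS S)
    (x : QS S) : QS.rest E hE (pe c x) = pe (fun i => QS.rest E hE (c i)) (QS.rest E hE x) := by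
  unfold pe
  rw [map_sum]
  apply Finset.sum_congr rfl
  intro i _
  rw [map_mul, map_pow]

namespace CD

variable {S T : Sp} {d N r : ℕ} {c : CD S d N r} {w : Fin N → ℝ} {z : Fin N} {ρ : ℝ}

/-! ### extensions -/

section pull

variable (p : Pj T S)

theorem pull_b (i : Fin r) : (c.pull p).b i = p.map (c.b i) := (p.map_io (c.bV i)).symm

theorem pull_K (s : ℝ) : (c.pull p).K s = p.map (c.K s) := (p.map_io (c.VK s)).symm

theorem pull_xi (i : Fin r) : (c.pull p).xi i = p.map (c.xi i) := by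
  show (c.pull p).b i ⊔ vd (fun x => p.qs (c.cv i x)) 1 = _
  rw [pull_b, p.qs_vd (c.cv i) 1, ← p.map_sup]
  rfl

theorem pull_O : (c.pull p).O = p.map c.O := by
  show vd (fun i => p.qs (c.q i)) 1 ⊔ vd (fun i => p.qs (c.R i)) 1 = _
  rw [p.qs_vd, p.qs_vd, ← p.map_sup]
  rfl

theorem Ln.pull (h : c.Ln) : (c.pull p).Ln where
  real := by
    have h1 := h.real.pull p
    rw [p.map_bot] at h1
    exact h1
  bdd := fun i => (p.bdd_iff (c.bV i)).mpr (h.bdd i)
  lit := fun i j => ⟨lit_pull p (h.lit i j).1, lit_pull p (h.lit i j).2⟩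
  gen := fun i => by
    rw [pull_b, h.gen i, p.map_sup, ← p.qs_vd, ← p.qs_vd]
    rfl
  a0 := fun i => by
    show p.qs (c.a i 0) = 0
    rw [h.a0 i, map_zero]
  u0 := fun i => by
    show p.qs (c.u i 0) = 1
    rw [h.u0 i, map_one]
  line := fun i j => by
    show p.qs (c.q j) = p.qs (c.a i j) + p.qs (c.q 0) * p.qs (c.u i j)
    rw [← map_mul, ← map_add, ← h.line i j]
  curve := fun i j => by
    show p.qs (c.R j) = pe (fun k => p.qs (c.cf i j k)) (p.qs (c.q 0))
    rw [← pe_map, ← h.curve i j]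
  time := fun i => by
    rw [pull_xi]
    show Pool.Agent.Helper31.EC.h (dg (p.qs (c.q 0)) 1) (p.map (c.xi i)) = 1
    rw [p.qs_dg, p.h_map, h.time i]
  r1 := by
    rw [pull_O]
    have e1 : (univ.sup fun i => vd ((c.pull p).u i) 1) = p.map (univ.sup fun i => vd (c.u i) 1) := by
      rw [p.map_finsup]
      congr 1
      funext i
      exact p.qs_vd (c.u i) 1
    rw [e1, ← p.map_bot, p.I_map, h.r1]

theorem Bx.pull (w1 : ∀ j, 1 < w j) (wz : ∀ j, w j ≤ w z) (h : c.Bx w z) : (c.pull p).Bx w z where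
  bdd := fun s => (p.bdd_iff (c.VK s)).mpr (h.bdd s)
  zero := fun k ω ω' a b hZ => h.zero k _ _ (p.supp k ω a) (p.supp k ω' b) ((p.hZ k ω ω' a b).mp hZ)
  lit := fun s a => lit_pull p (h.lit s a)
  gen := fun s h0 h1 => by
    rw [pull_K, h.gen s h0 h1, ← p.qs_vd]
    rfl
  mono := fun s s' h0 h1 h2 => by
    rw [pull_K, pull_K]
    exact p.map_mono (h.mono s s' h0 h1 h2)
  pt := fun s h0 h1 => by
    rw [pull_K]
    show _ ≤ vd (fun i => p.qs (c.q i)) _ ⊔ vd (fun i => p.qs (c.R i)) _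
    rw [p.qs_vd, p.qs_vd, ← p.map_sup]
    exact p.map_mono (h.pt s h0 h1)
  xi := fun s h0 h1 i => by
    rw [pull_K, pull_xi]
    show _ ≤ _ ⊔ dg (p.qs (c.q 0)) s
    rw [p.qs_dg, ← p.map_sup]
    exact p.map_mono (h.xi s h0 h1 i)
  fq := fun s h0 h1 i => by
    have s1 : s ≤ 1 := by nlinarith [w1 z]
    show p.qs (c.q i) - p.qs (c.q0 s i) ∈ Id T s
    rw [← map_sub]
    exact (p.qs_mem_Id s1).mpr (h.fq s h0 h1 i)
  fγ := fun s h0 h1 j => by
    have s1 : w j * s ≤ 1 := (mul_le_mul_of_nonneg_right (wz j) h0).trans h1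
    exact (p.qs_mem_Id s1).mpr (h.fγ s h0 h1 j)
  fR := fun s h0 h1 j => by
    show p.qs (c.R j) = _
    rw [h.fR s h0 h1 j, map_add, qs_eval]
    have e1 : (fun i => p.qs (Sum.elim (fun i => c.q i - c.q0 s i) (c.γ s) i)) =
        Sum.elim (fun i => (c.pull p).q i - (c.pull p).q0 s i) ((c.pull p).γ s) := by
      funext i
      rcases i with i | i
      · exact map_sub p.qs _ _
      · rfl
    rw [e1]
    rfl
  deg := fun s j n hn => by
    apply h.deg s j n
    intro h0
    apply hn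
    show MvPolynomial.coeff n (MvPolynomial.map p.qs (c.F s j)) = 0
    rw [MvPolynomial.coeff_map, h0, map_zero]
  litq := fun s i => lit_pull p (h.litq s i)
  litF := fun s j n => by
    show Lit _ (MvPolynomial.coeff n (MvPolynomial.map p.qs (c.F s j)))
    rw [MvPolynomial.coeff_map]
    exact lit_pull p (h.litF s j n)
  gq := fun s i hn => by
    have h1 : c.q0 s i ≠ 0 := by
      intro h0
      apply hn
      show p.qs (c.q0 s i) = 0
      rw [h0, map_zero]
    obtain ⟨a, ha⟩ := h.gq s i h1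
    exact ⟨a, congrArg p.qs ha⟩
  gF := fun s j n hn => by
    have h1 : (c.F s j).coeff n ≠ 0 := by
      intro h0
      apply hn
      show MvPolynomial.coeff n (MvPolynomial.map p.qs (c.F s j)) = 0
      rw [MvPolynomial.coeff_map, h0, map_zero]
    obtain ⟨a, ha⟩ := h.gF s j n h1
    refine ⟨a, ?_⟩
    show MvPolynomial.coeff n (MvPolynomial.map p.qs (c.F s j)) = p.qs (c.G s a)
    rw [MvPolynomial.coeff_map, ha]
  q00 := fun i => by
    show p.qs (c.q0 0 i) = 0
    rw [h.q00 i, map_zero]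
  F0 := fun j => by
    show MvPolynomial.map p.qs (c.F 0 j) = 0
    rw [h.F0 j, map_zero]

end pull

/-! ### events -/

section rest

variable (E : ∀ k, (S.F k).Ω → Prop) (hE : 0 < ul (S.pr E))

theorem rest_b (h : ∀ i, Bdd (c.bV i)) (i : Fin r) : (c.rest E hE).b i = restL E hE (c.b i) :=
  (restL_io E hE (h i)).symm

theorem rest_K {s : ℝ} (h : Bdd (c.VK s)) : (c.rest E hE).K s = restL E hE (c.K s) := (restL_io E hE h).symm

theorem rest_xi (h : ∀ i, Bdd (c.bV i)) (i : Fin r) : (c.rest E hE).xi i = restL E hE (c.xi i) := by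
  show (c.rest E hE).b i ⊔ vd (fun x => QS.rest E hE (c.cv i x)) 1 = _
  rw [rest_b E hE h, QS.rest_vd E hE, ← restL_sup]
  rfl

theorem rest_O : (c.rest E hE).O = restL E hE c.O := by
  show vd (fun i => QS.rest E hE (c.q i)) 1 ⊔ vd (fun i => QS.rest E hE (c.R i)) 1 = _
  rw [QS.rest_vd E hE, QS.rest_vd E hE, ← restL_sup]
  rfl

theorem Ln.rest (h : c.Ln) : (c.rest E hE).Ln where
  real := by
    have h1 := QS.Rl.rest E hE h.real
    rw [restL_bot] at h1
    exact h1
  bdd := fun i => rest_VB E (h.bdd i)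
  lit := fun i j => ⟨lit_rest E hE (h.lit i j).1, lit_rest E hE (h.lit i j).2⟩
  gen := fun i => by
    rw [rest_b E hE h.bdd, h.gen i, restL_sup, ← QS.rest_vd E hE, ← QS.rest_vd E hE]
    rfl
  a0 := fun i => by
    show QS.rest E hE (c.a i 0) = 0
    rw [h.a0 i, map_zero]
  u0 := fun i => by
    show QS.rest E hE (c.u i 0) = 1
    rw [h.u0 i, map_one]
  line := fun i j => by
    show QS.rest E hE (c.q j) = QS.rest E hE (c.a i j) + QS.rest E hE (c.q 0) * QS.rest E hE (c.u i j)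
    rw [← map_mul, ← map_add, ← h.line i j]
  curve := fun i j => by
    show QS.rest E hE (c.R j) = pe (fun k => QS.rest E hE (c.cf i j k)) (QS.rest E hE (c.q 0))
    rw [← rest_pe, ← h.curve i j]
  time := fun i => by
    rw [rest_xi E hE h.bdd]
    show Pool.Agent.Helper31.EC.h (dg (QS.rest E hE (c.q 0)) 1) (restL E hE (c.xi i)) = 1
    rw [QS.rest_dg]
    apply h_rest_max E hE (h.time i)
    intro E' hE'
    rw [← QS.rest_dg]
    exact h_dg_le_one _ _
  r1 := by
    rw [rest_O]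
    have e1 : (univ.sup fun i => vd ((c.rest E hE).u i) 1) = restL E hE (univ.sup fun i => vd (c.u i) 1) := by
      rw [restL_finsup]
      congr 1
      funext i
      exact QS.rest_vd E hE (c.u i) 1
    rw [e1, ← restL_bot E hE]
    exact I_rest_zero E hE h.r1

theorem Bx.rest (hb : ∀ i, Bdd (c.bV i)) (w1 : ∀ j, 1 < w j) (wz : ∀ j, w j ≤ w z) (h : c.Bx w z) :
    (c.rest E hE).Bx w z where
  bdd := fun s => rest_VB E (h.bdd s)
  zero := fun k ω ω' a b hZ =>
    h.zero k _ _ ((S.F k).rest_supp (E k) ω a).1 ((S.F k).rest_supp (E k) ω' b).1 hZ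
  lit := fun s a => lit_rest E hE (h.lit s a)
  gen := fun s h0 h1 => by
    rw [rest_K E hE (h.bdd s), h.gen s h0 h1, ← QS.rest_vd E hE]
    rfl
  mono := fun s s' h0 h1 h2 => by
    rw [rest_K E hE (h.bdd s), rest_K E hE (h.bdd s')]
    exact restL_mono E hE (h.mono s s' h0 h1 h2)
  pt := fun s h0 h1 => by
    rw [rest_K E hE (h.bdd s)]
    show _ ≤ vd (fun i => QS.rest E hE (c.q i)) _ ⊔ vd (fun i => QS.rest E hE (c.R i)) _
    rw [QS.rest_vd E hE, QS.rest_vd E hE, ← restL_sup]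
    exact restL_mono E hE (h.pt s h0 h1)
  xi := fun s h0 h1 i => by
    have h2 := restL_mono E hE (h.xi s h0 h1 i)
    rw [restL_sup, ← QS.rest_dg, ← rest_xi E hE hb] at h2
    rw [rest_K E hE (h.bdd s)]
    exact h2
  fq := fun s h0 h1 i => by
    have s1 : s ≤ 1 := by nlinarith [w1 z]
    show QS.rest E hE (c.q i) - QS.rest E hE (c.q0 s i) ∈ Id (S.rest E) s
    rw [← map_sub]
    exact Pool.Agent.Helper38.NS.rest_mem_Id E hE s1 (h.fq s h0 h1 i)
  fγ := fun s h0 h1 j => by
    have s1 : w j * s ≤ 1 := (mul_le_mul_of_nonneg_right (wz j) h0).trans h1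
    exact Pool.Agent.Helper38.NS.rest_mem_Id E hE s1 (h.fγ s h0 h1 j)
  fR := fun s h0 h1 j => by
    show QS.rest E hE (c.R j) = _
    rw [h.fR s h0 h1 j, map_add, Pool.Agent.Helper95.RIG.eval_hom]
    have e1 : (fun i => QS.rest E hE (Sum.elim (fun i => c.q i - c.q0 s i) (c.γ s) i)) =
        Sum.elim (fun i => (c.rest E hE).q i - (c.rest E hE).q0 s i) ((c.rest E hE).γ s) := by
      funext i
      rcases i with i | i
      · exact map_sub (QS.rest E hE) _ _
      · rfl
    rw [e1]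
    rfl
  deg := fun s j n hn => by
    apply h.deg s j n
    intro h0
    apply hn
    show MvPolynomial.coeff n (MvPolynomial.map (QS.rest E hE) (c.F s j)) = 0
    rw [MvPolynomial.coeff_map, h0, map_zero]
  litq := fun s i => lit_rest E hE (h.litq s i)
  litF := fun s j n => by
    show Lit _ (MvPolynomial.coeff n (MvPolynomial.map (QS.rest E hE) (c.F s j)))
    rw [MvPolynomial.coeff_map]
    exact lit_rest E hE (h.litF s j n)
  gq := fun s i hn => by
    have h1 : c.q0 s i ≠ 0 := by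
      intro h0
      apply hn
      show QS.rest E hE (c.q0 s i) = 0
      rw [h0, map_zero]
    obtain ⟨a, ha⟩ := h.gq s i h1
    exact ⟨a, congrArg (QS.rest E hE) ha⟩
  gF := fun s j n hn => by
    have h1 : (c.F s j).coeff n ≠ 0 := by
      intro h0
      apply hn
      show MvPolynomial.coeff n (MvPolynomial.map (QS.rest E hE) (c.F s j)) = 0
      rw [MvPolynomial.coeff_map, h0, map_zero]
    obtain ⟨a, ha⟩ := h.gF s j n h1
    refine ⟨a, ?_⟩
    show MvPolynomial.coeff n (MvPolynomial.map (QS.rest E hE) (c.F s j)) = QS.rest E hE (c.G s a)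
    rw [MvPolynomial.coeff_map, ha]
  q00 := fun i => by
    show QS.rest E hE (c.q0 0 i) = 0
    rw [h.q00 i, map_zero]
  F0 := fun j => by
    show MvPolynomial.map (QS.rest E hE) (c.F 0 j) = 0
    rw [h.F0 j, map_zero]

end rest

end CD

end

end Pool.Agent.Helper13.AM
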