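import Pool.Agent.Helper13.AM.Ztw
import Pool.Agent.Helper90.BLD.Nlz

/-! ALL DIMENSIONS, builder, row AXZ: zooms of corners, from the boxes of the zoom `CD.zm`. -/

set_option autoImplicit false
set_option linter.unusedSectionVars false

namespace Pool.Agent.Helper13.AM

open Finset Filter Topology Pool.Agent.Helper69.RK Pool.Agent.Helper31.EC Pool.Agent.Helper31.EC.Sp
open Pool.Agent.Helper31.EC.QS Pool.Agent.Helper10.BLD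
open Pool.Agent.Helper82.TP (Lit)
open Pool.Agent.Helper57.TA (sc wgt)

noncomputable section

section

variable {S : Sp} {d N r : ℕ} {c : CD S d N r} {w : Fin N → ℝ} {z : Fin N} {ρ : ℝ} {Z : ∀ k, Setoid (S.F k).Ω}
  {s e : ℝ} {he : 0 < e} {h1 : e ≤ 1} {X : Fin (d + 1) → QS S} {Y : Fin N → QS S} {A : Fin r → Fin (d + 1) → QS S}
  {g' : ℕ} {Cf : Fin r → Fin N → Fin (g' + 1) → QS S} {m' : ℝ → ℕ} {G' : ∀ s', Fin (m' s') → QS (S.chg Z e he)}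
  {q0' : ℝ → Fin (d + 1) → QS (S.chg Z e he)}
  {F' : ℝ → Fin N → MvPolynomial (Fin (d + 1) ⊕ Fin N) (QS (S.chg Z e he))}
  {γ' : ℝ → Fin N → QS (S.chg Z e he)}

theorem zm_wd (hCz : ∀ i j (k : Fin (g' + 1)), w j < ((k : ℕ) : ℝ) → Cf i j k = 0) :
    Wd (c.zm Z e he h1 s X Y A g' Cf m' G' q0' F' γ') w := fun i j k hk => by
  show cQ Z e he h1 (Cf i j k) = 0
  rw [hCz i j k hk, map_zero]

/-- the axioms of the zoom from its boxes -/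
theorem zm_ax0 (hc : Ax0 c w z ρ) (hn : c.Num w z ρ) (h0 : 0 ≤ s) (hse : w z * s + e ≤ 1)
    (hZ : ∀ k, Z k = Setoid.ker (c.VK s k)) (hT : c.ZT w s X Y A g' Cf)
    (hCz : ∀ i j (k : Fin (g' + 1)), w j < ((k : ℕ) : ℝ) → Cf i j k = 0)
    (hB : (c.zm Z e he h1 s X Y A g' Cf m' G' q0' F' γ').Bx w z) :
    Ax0 (c.zm Z e he h1 s X Y A g' Cf m' G' q0' F' γ') w z ρ :=
  ⟨hc.w1, hc.wz, hc.rho0, hc.rho1,
    CD.zm_ln hc.ln hc.bx hT hZ (hn.pr0 s h0 (by linarith)) hc.w1 hc.wz h0 hse, zm_wd hCz, hB,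
    Pool.Agent.Helper90.BLD.nlw_zoom hc.w1 hc.wz hc.bx h0 hse (CD.zm_ZR hc.ln hc.bx hT hZ) hc.nlw⟩

end

/-- [ZBX] the boxes of the zoom -/
def ST_ZBX : Prop := ∀ (S : Sp) (d N r : ℕ) (c : CD S d N r) (w : Fin N → ℝ) (z : Fin N) (ρ : ℝ), Ax0 c w z ρ →
  c.Num w z ρ → ∀ (s e : ℝ) (he : 0 < e) (h1 : e ≤ 1), 0 ≤ s → w z * s + e ≤ 1 → ∀ Z : ∀ k, Setoid (S.F k).Ω,
    (∀ k, Z k = Setoid.ker (c.VK s k)) → ∀ (X : Fin (d + 1) → QS S) (Y : Fin N → QS S)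
      (A : Fin r → Fin (d + 1) → QS S) (g' : ℕ) (Cf : Fin r → Fin N → Fin (g' + 1) → QS S),
      c.ZT w s X Y A g' Cf → ∃ (m' : ℝ → ℕ) (G' : ∀ s', Fin (m' s') → QS (S.chg Z e he))
        (q0' : ℝ → Fin (d + 1) → QS (S.chg Z e he))
        (F' : ℝ → Fin N → MvPolynomial (Fin (d + 1) ⊕ Fin N) (QS (S.chg Z e he)))
        (γ' : ℝ → Fin N → QS (S.chg Z e he)), (c.zm Z e he h1 s X Y A g' Cf m' G' q0' F' γ').Bx w z ∧
          (∀ s', 0 ≤ s' → w z * (s + e * s') ≤ 1 → ∀ i, ∃ X : QS S, c.q0 (s + e * s') i - c.q0 s i = sc S s * X ∧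
            q0' s' i = cQ Z e he h1 X) ∧
          ∀ s', 0 ≤ s' → w z * (s + e * s') ≤ 1 → ∀ j, ∃ Y : QS S, c.γ (s + e * s') j = sc S (w j * s) * Y ∧
            γ' s' j = cQ Z e he h1 Y

theorem axz_of (h : ST_ZBX) : ST_AXZ := by
  intro S d N r c w z ρ hc hn s e he h1 h0 hse Z hZ
  obtain ⟨X, Y, A, g', Cf, hT, hCz⟩ := CD.exists_ZTw hc.ln hc.bx hc.wd hc.w1 hc.wz h0 (by linarith)
  obtain ⟨m', G', q0', F', γ', hB, h2, h3⟩ := h S d N r c w z ρ hc hn s e he h1 h0 hse Z hZ X Y A g' Cf hT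
  exact ⟨_, ⟨CD.zm_ZR hc.ln hc.bx hT hZ, h2, h3⟩, zm_ax0 hc hn h0 hse hZ hT hCz hB⟩

end

end Pool.Agent.Helper13.AM
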