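import Pool.Agent.Helper13.AM.Cor
import Pool.Agent.Helper34.SLC.Fresh

/-! ALL DIMENSIONS, exact calculus: facts which follow from the axioms of a corner: independences, helper33's homogeneous
corner and visibility, the view as a corner of helper95 with all its axioms. -/

set_option autoImplicit false

namespace Pool.Agent.Helper13.AM

open Finset Filter Topology Pool.Agent.Helper69.RK Pool.Agent.Helper31.EC Pool.Agent.Helper31.EC.Sp
open Pool.Agent.Helper31.EC.QS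
open Pool.Agent.Helper82.TP (Lit)
open Pool.Agent.Helper57.TA (sc wgt)
open Pool.Agent.Helper33.CM (h_add_I h_split)

noncomputable section

/-- values of polynomials in a subring -/
theorem eval_mem_sub {A σ : Type*} [CommRing A] (K : Subring A) (f : σ → A) (P : MvPolynomial σ A)
    (hP : ∀ n, P.coeff n ∈ K) (hf : ∀ n, P.coeff n ≠ 0 → ∀ x ∈ n.support, f x ∈ K) : MvPolynomial.eval f P ∈ K := by
  rw [MvPolynomial.eval_eq]
  refine K.sum_mem fun n hn => K.mul_mem (hP n) (K.prod_mem fun x hx => K.pow_mem (hf n ?_ x hx) _)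
  exact MvPolynomial.mem_support_iff.mp hn

/-- digits of scaled functions, any level -/
theorem dg_scl {S : Sp} (g : QS S) {a r : ℝ} (ha : 0 ≤ a) (hr : r ≤ 1) : dg (sc S a * g) r = dg g (r - a) := by
  obtain ⟨G, rfl⟩ := mk_surj g
  unfold sc
  rw [← map_mul, dg_mk _ hr, dg_mk _ (by linarith)]
  show io (fun k ω => cell (S.dl r k) ((TR.vec fun _ : Fin 1 => Helper57.TA.scT S a * G).v k ω)) =
    io (fun k ω => cell (S.dl (r - a) k) ((TR.vec fun _ : Fin 1 => G).v k ω))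
  congr 1
  funext k ω i
  show ⌊S.dl (max a 0) k * TR.ev G k ω / S.dl r k⌋ = ⌊TR.ev G k ω / S.dl (r - a) k⌋
  have e1 : S.dl r k = S.dl a k * S.dl (r - a) k := by
    rw [← S.dl_add]
    congr 1
    ring
  rw [max_eq_left ha, e1]
  congr 1
  have h1 := (S.dl_pos a k).ne'
  have h2 := (S.dl_pos (r - a) k).ne'
  field_simp

namespace CD

variable {S : Sp} {d N r : ℕ} {c : CD S d N r} {w : Fin N → ℝ} {z : Fin N} {ρ : ℝ}

/-! ### base point, point, lines -/

theorem P_le_O : c.P ≤ c.O := le_sup_left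

theorem R_le_O : vd c.R 1 ≤ c.O := le_sup_right

theorem Ln.P_le (hc : c.Ln) (i : Fin r) : c.P ≤ c.b i ⊔ dg (c.q 0) 1 := by
  unfold P
  rw [vd_le]
  intro j
  rw [hc.line i j, hc.gen i]
  have h1 := dg_add_le (c.a i j) (c.q 0 * c.u i j) (le_refl (1 : ℝ))
  have h2 := dg_mul_le (c.q 0) (c.u i j) (le_refl (1 : ℝ))
  have h3 := dg_le_vd (c.a i) 1 j
  have h4 := dg_le_vd (c.u i) 1 j
  order

theorem Ln.u_le (hc : c.Ln) (i : Fin r) : vd (c.u i) 1 ≤ c.b i := by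
  rw [hc.gen i]
  exact le_sup_right

theorem Ln.a_le (hc : c.Ln) (i : Fin r) : vd (c.a i) 1 ≤ c.b i := by
  rw [hc.gen i]
  exact le_sup_left

/-- over the base point the base line is its direction -/
theorem Ln.b_le (hc : c.Ln) (i : Fin r) : c.b i ≤ vd (c.u i) 1 ⊔ c.P := by
  rw [hc.gen i]
  refine sup_le ?_ le_sup_left
  rw [vd_le]
  intro j
  have e1 : c.a i j = c.q j - c.q 0 * c.u i j := by
    rw [hc.line i j]
    ring
  rw [e1]
  have h1 := dg_sub_le (c.q j) (c.q 0 * c.u i j) (le_refl (1 : ℝ))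
  have h2 := dg_mul_le (c.q 0) (c.u i j) (le_refl (1 : ℝ))
  have h3 : dg (c.q j) 1 ≤ c.P := dg_le_vd c.q 1 j
  have h4 : dg (c.q 0) 1 ≤ c.P := dg_le_vd c.q 1 0
  have h5 := dg_le_vd (c.u i) 1 j
  order

/-- base lines and the point are independent over the base point -/
theorem Ln.ind (hc : c.Ln) : I (univ.sup c.b) c.O c.P = 0 := by
  have h0 := hc.r1
  have h1 : I (univ.sup fun i => vd (c.u i) 1) c.O c.P = 0 := by
    have h2 : I (univ.sup fun i => vd (c.u i) 1) (c.P ⊔ c.O) ⊥ = 0 := by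
      rw [sup_eq_right.mpr P_le_O]
      exact h0
    rw [I_chain_right, sup_bot_eq] at h2
    have h3 := I_nonneg (univ.sup fun i => vd (c.u i) 1) c.P ⊥
    have h4 := I_nonneg (univ.sup fun i => vd (c.u i) 1) c.O c.P
    linarith
  refine I_zero_mono h1 ?_ le_sup_left
  refine Finset.sup_le fun i _ => (hc.b_le i).trans ?_
  exact sup_le_sup_right (Finset.le_sup (f := fun i => vd (c.u i) 1) (mem_univ i)) _

theorem Ln.xi_b (i : Fin r) : c.b i ≤ c.xi i := le_sup_left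

/-- the point is a function of the curve and of the height -/
theorem Ln.O_le (hc : c.Ln) (i : Fin r) : c.O ≤ c.xi i ⊔ dg (c.q 0) 1 := by
  refine sup_le ((hc.P_le i).trans (sup_le_sup_right le_sup_left _)) ?_
  rw [vd_le]
  intro j
  rw [hc.curve i j]
  unfold pe
  apply (Kn S 1 le_rfl (c.xi i ⊔ dg (c.q 0) 1)).sum_mem
  intro k _
  apply (Kn S 1 le_rfl (c.xi i ⊔ dg (c.q 0) 1)).mul_mem
  · exact ((dg_le_vd (c.cv i) 1 (j, k)).trans le_sup_right).trans le_sup_left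
  · exact (Kn S 1 le_rfl (c.xi i ⊔ dg (c.q 0) 1)).pow_mem
      (show dg (c.q 0) 1 ≤ c.xi i ⊔ dg (c.q 0) 1 from le_sup_right) _

/-! ### boxes -/

theorem Bx.K_zero (hc : c.Bx w z) : c.K 0 = ⊥ := by
  unfold K
  rw [eq_bot_iff, io_eq (hc.bdd 0), ← cl_bot, cl_le]
  have e : (Inf.bot : S.Inf).1 = fun k => Setoid.ker (fun _ : (S.F k).Ω => ()) := by
    funext k
    ext ω ω'
    exact ⟨fun _ => rfl, fun _ => trivial⟩
  show Tendsto (S.rt (fun k => Setoid.ker (c.VK 0 k)) (Inf.bot : S.Inf).1) UF (𝓝 0)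
  rw [e]
  apply Tendsto.congr' _ tendsto_const_nhds
  refine Eventually.of_forall fun k => ?_
  exact (rt_zero_of_fun (c.VK 0) (fun _ _ => ()) k fun ω ω' h1 h2 h3 _ => hc.zero k ω ω' h1 h2 h3).symm

/-- the box is a function of the curve and of the cell of level `s` of the height, from the independence -/
theorem K_le_xi_of (hl : c.Ln) {s : ℝ} (h1 : w z * s ≤ 1) (hp : c.K s ≤ vd c.q (w z * s) ⊔ vd c.R (w z * s))
    (i : Fin r) (h3 : I (c.K s) c.P (c.xi i ⊔ dg (c.q 0) s) = 0) : c.K s ≤ c.xi i ⊔ dg (c.q 0) s := by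
  have h2 : c.K s ≤ c.P ⊔ (c.xi i ⊔ dg (c.q 0) s) := by
    refine hp.trans ((sup_le_sup (vd_mono _ h1) (vd_mono _ h1)).trans ((Ln.O_le hl i).trans ?_))
    refine sup_le (le_sup_left.trans le_sup_right) (le_trans (dg_le_vd c.q 1 0) le_sup_left)
  rw [← h_le_zero_iff]
  have h4 := h_add_I (c.K s) c.P (c.xi i ⊔ dg (c.q 0) s)
  rw [h3, h_zero h2] at h4
  linarith

/-- the box is a function of the curve and of the cell of level `s` of the height -/
theorem K_le_xi (_ : c.Ln) (hc : c.Bx w z) {s : ℝ} (h0 : 0 ≤ s) (h1 : w z * s ≤ 1) (i : Fin r) :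
    c.K s ≤ c.xi i ⊔ dg (c.q 0) s := hc.xi s h0 h1 i

theorem Bx.K_le (hc : c.Bx w z) {s : ℝ} (h0 : 0 ≤ s) (h1 : w z * s ≤ 1) : c.K s ≤ c.O :=
  (hc.pt s h0 h1).trans (sup_le_sup (vd_mono _ h1) (vd_mono _ h1))

/-- box coordinates are known to the box, to the base point and to the coordinates of at most the same weight, level by
level -/
theorem Bx.gam_le (hc : c.Bx w z) (hw : ∀ j, 0 < w j) {s k : ℝ} (h0 : 0 ≤ s) (h1 : w z * s ≤ 1) (hk : k ≤ 1)
    {X : S.L} : ∀ j, (∀ l, w l ≤ w j → dg (c.R l) k ≤ X) → dg (c.γ s j) k ≤ X ⊔ (c.K s ⊔ c.P) := by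
  intro j
  induction hn : (univ.filter fun l => w l < w j).card using Nat.strong_induction_on generalizing j with
  | _ n ih =>
    intro hX
    have e1 : c.γ s j = c.R j -
        MvPolynomial.eval (Sum.elim (fun i => c.q i - c.q0 s i) (c.γ s)) (c.F s j) := by
      rw [hc.fR s h0 h1 j]
      ring
    rw [e1]
    have hR : c.R j ∈ Kn S k hk (X ⊔ (c.K s ⊔ c.P)) := (hX j le_rfl).trans le_sup_left
    refine (Kn S k hk (X ⊔ (c.K s ⊔ c.P))).sub_mem hR (eval_mem_sub _ _ _ (fun n => ?_) fun n hn0 x hx => ?_)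
    · exact (dg_mono _ hk).trans (((hc.litF s j n).dg_le (hc.bdd s) le_rfl).trans (le_sup_left.trans le_sup_right))
    · have hdeg := hc.deg s j n hn0
      rcases x with i | l
      · show dg (c.q i - c.q0 s i) k ≤ _
        refine (dg_mono _ hk).trans ((dg_sub_le _ _ le_rfl).trans (sup_le ?_ ?_))
        · exact (dg_le_vd c.q 1 i).trans (le_sup_right.trans le_sup_right)
        · exact ((hc.litq s i).dg_le (hc.bdd s) le_rfl).trans (le_sup_left.trans le_sup_right)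
      · have hl : w l < w j := by
          refine lt_of_le_of_lt ?_ hdeg
          have h2 : (1 : ℝ) ≤ (n (Sum.inr l) : ℝ) := by
            exact_mod_cast Nat.one_le_iff_ne_zero.mpr (Finsupp.mem_support_iff.mp hx)
          have h3 : (n (Sum.inr l) : ℝ) * w l ≤ wgt (Sum.elim (fun _ : Fin (d + 1) => (1 : ℝ)) w) n := by
            unfold wgt
            have h4 := Finset.single_le_sum (f := fun a => (n a : ℝ) * Sum.elim (fun _ : Fin (d + 1) => (1 : ℝ)) w a)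
              (s := univ) (fun a _ => by
                refine mul_nonneg (Nat.cast_nonneg _) ?_
                rcases a with a | a
                · exact zero_le_one
                · exact (hw a).le) (mem_univ (Sum.inr l))
            exact h4
          nlinarith [hw l]
        show dg (c.γ s l) k ≤ _
        refine ih _ ?_ l rfl fun l' hl' => hX l' (hl'.trans hl.le)
        rw [← hn]
        apply Finset.card_lt_card
        rw [Finset.ssubset_iff_of_subset]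
        · exact ⟨l, by simpa using hl, by simp⟩
        · intro a ha
          simp only [mem_filter, mem_univ, true_and] at ha ⊢
          exact ha.trans hl

/-- thickness: the box is thin in the direction of `z` -/
theorem Bx.zk (hc : c.Bx w z) (hw : ∀ j, 0 < w j) {s : ℝ} (h0 : 0 ≤ s) (h1 : w z * s ≤ 1) :
    dg (c.R z) (w z * s) ≤ c.K s ⊔ (vd (c.M z) (w z * s) ⊔ c.P) := by
  have e1 : c.R z - MvPolynomial.eval (Sum.elim (fun i => c.q i - c.q0 s i) (c.γ s)) (c.F s z) ∈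
      Id S (w z * s) := by
    have e2 : c.R z - MvPolynomial.eval (Sum.elim (fun i => c.q i - c.q0 s i) (c.γ s)) (c.F s z) = c.γ s z := by
      rw [hc.fR s h0 h1 z]
      ring
    rw [e2]
    exact hc.fγ s h0 h1 z
  rw [dg_eq_of_sub_mem e1 le_rfl h1]
  refine eval_mem_sub (Kn S (w z * s) h1 (c.K s ⊔ (vd (c.M z) (w z * s) ⊔ c.P))) _ _ (fun n => ?_)
    fun n hn0 x hx => ?_
  · exact (dg_mono _ h1).trans (((hc.litF s z n).dg_le (hc.bdd s) le_rfl).trans le_sup_left)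
  · have hdeg := hc.deg s z n hn0
    rcases x with i | l
    · show dg (c.q i - c.q0 s i) (w z * s) ≤ _
      refine (dg_mono _ h1).trans ((dg_sub_le _ _ le_rfl).trans (sup_le ?_ ?_))
      · exact (dg_le_vd c.q 1 i).trans (le_sup_right.trans le_sup_right)
      · exact ((hc.litq s i).dg_le (hc.bdd s) le_rfl).trans le_sup_left
    · have hl : w l < w z := by
        refine lt_of_le_of_lt ?_ hdeg
        have h2 : (1 : ℝ) ≤ (n (Sum.inr l) : ℝ) := by
          exact_mod_cast Nat.one_le_iff_ne_zero.mpr (Finsupp.mem_support_iff.mp hx)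
        have h3 : (n (Sum.inr l) : ℝ) * w l ≤ wgt (Sum.elim (fun _ : Fin (d + 1) => (1 : ℝ)) w) n := by
          unfold wgt
          have h4 := Finset.single_le_sum (f := fun a => (n a : ℝ) * Sum.elim (fun _ : Fin (d + 1) => (1 : ℝ)) w a)
            (s := univ) (fun a _ => by
              refine mul_nonneg (Nat.cast_nonneg _) ?_
              rcases a with a | a
              · exact zero_le_one
              · exact (hw a).le) (mem_univ (Sum.inr l))
          exact h4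
        nlinarith [hw l]
      have h5 := hc.gam_le hw (X := vd (c.M z) (w z * s)) h0 h1 h1 l fun l' hl' =>
        dg_le_vd (c.M z) (w z * s) ⟨l', fun he => absurd (he ▸ hl') (not_le.mpr hl)⟩
      show dg (c.γ s l) (w z * s) ≤ _
      refine h5.trans ?_
      order

/-! ### helper33's homogeneous corner -/

theorem Ax.w0 (hc : c.Ax w z ρ) (j : Fin N) : 0 < w j := zero_lt_one.trans (hc.w1 j)

/-- the homogeneous corner of helper33 -/
def toH (hc : c.Ax w z ρ) : Helper33.CM.HCor S.L where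
  F := ⊥
  q := c.P
  M := fun k => vd (c.M z) k
  z := fun k => dg (c.R z) k
  be := c.K
  B := 1
  N := (N : ℝ) - 1
  W := ∑ j ∈ univ.erase z, w j
  d := (d : ℝ) + 1
  w := w z
  A₀ := (d : ℝ) + 1 + (∑ j ∈ univ.erase z, w j) + (1 - ρ) * w z
  hB := zero_le_one
  hw := hc.w0 z
  Fq := bot_le
  monoM := fun _ _ _ h _ => vd_mono _ h
  monoz := fun _ _ _ h _ => dg_mono _ h
  hbe := fun s h0 h1 => (h_bot _).trans (hc.num.hbe s h0 h1)
  pr0 := fun s h0 h1 => hc.num.pr0 s h0 h1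
  pr1 := fun k h0 h1 => hc.num.pr1 k h0 h1
  pr2 := fun s k h0 h1 h2 => hc.num.pr2 s k h0 h1 h2
  zk := fun _ h0 h1 => hc.bx.zk hc.w0 h0 h1

theorem toH_vis (hc : c.Ax w z ρ) : (toH hc).Vis := by
  intro s h0 h1
  exact hc.num.vis s h0 h1

theorem toH_kap (hc : c.Ax w z ρ) : (toH hc).κ = 1 - ρ := by
  have h0 := hc.w0 z
  show ((d : ℝ) + 1 + (∑ j ∈ univ.erase z, w j) + (1 - ρ) * w z - ((d : ℝ) + 1) - ∑ j ∈ univ.erase z, w j) / w z = 1 - ρ
  rw [div_eq_iff h0.ne']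
  ring

/-- all vertical digits -/
theorem vdR_eq (k : ℝ) : vd c.R k = dg (c.R z) k ⊔ vd (c.M z) k := by
  apply le_antisymm
  · rw [vd_le]
    intro j
    rcases eq_or_ne j z with rfl | hj
    · exact le_sup_left
    · exact (dg_le_vd (c.M z) k ⟨j, hj⟩).trans le_sup_right
  · refine sup_le (dg_le_vd c.R k z) ?_
    rw [vd_le]
    exact fun j => dg_le_vd c.R k j.1

theorem toH_R (hc : c.Ax w z ρ) (k : ℝ) : (toH hc).R k = vd c.R k := (vdR_eq k).symm

theorem toH_O (hc : c.Ax w z ρ) : (toH hc).O = vd (c.M z) 1 ⊔ c.P := rfl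

end CD

/-! ### the numbers of a corner; `0 ≤ s`, `w z * s ≤ k ≤ 1` -/

section num

variable {S : Sp} {d N r : ℕ} {c : CD S d N r} {w : Fin N → ℝ} {z : Fin N} {ρ : ℝ}

/-- `h(K_s | P)` -/
theorem CD.Ax.h_K (hc : c.Ax w z ρ) {s : ℝ} (h0 : 0 ≤ s) (h1 : w z * s ≤ 1) :
    h (c.K s) c.P = ((∑ j ∈ univ.erase z, w j) + (1 - ρ) * w z) * s := by
  have h2 := (CD.toH hc).h_be_q (s := s) h0 h1
  refine h2.trans ?_
  show ((d : ℝ) + 1 + (∑ j ∈ univ.erase z, w j) + (1 - ρ) * w z - ((d : ℝ) + 1)) * s = _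
  ring

/-- (D) from the bottom: `h(z_k | P, M) = (1 - ρ) k` -/
theorem CD.Ax.h_z (hc : c.Ax w z ρ) {k : ℝ} (h0 : 0 ≤ k) (h1 : k ≤ 1) :
    h (dg (c.R z) k) (vd (c.M z) 1 ⊔ c.P) = (1 - ρ) * k := by
  have h2 := (CD.toH_vis hc).h_z_O (k := k) h0 h1
  rw [CD.toH_kap] at h2
  exact h2

/-- (D) given the box -/
theorem CD.Ax.h_z_K (hc : c.Ax w z ρ) {s k : ℝ} (h0 : 0 ≤ s) (h1 : w z * s ≤ k) (h2 : k ≤ 1) :
    h (dg (c.R z) k) (c.K s ⊔ (vd (c.M z) 1 ⊔ c.P)) = (1 - ρ) * (k - w z * s) := by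
  have h3 := (CD.toH_vis hc).h_z_be (s := s) (k := k) h0 h1 h2
  rw [CD.toH_kap] at h3
  exact h3

/-- (D) -/
theorem CD.Ax.h_zz (hc : c.Ax w z ρ) {s a b : ℝ} (h0 : 0 ≤ s) (h1 : w z * s ≤ a) (h2 : a ≤ b) (h3 : b ≤ 1) :
    h (dg (c.R z) b) (dg (c.R z) a ⊔ (c.K s ⊔ (vd (c.M z) 1 ⊔ c.P))) = (1 - ρ) * (b - a) := by
  have h4 := (CD.toH_vis hc).D (s := s) (a := a) (b := b) h0 h1 h2 h3
  rw [CD.toH_kap] at h4
  exact h4

/-- (0.1): the box is a function of the base point and of the vertical digits of level `k ≥ w z * s` -/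
theorem CD.Ax.K_le (hc : c.Ax w z ρ) {s k : ℝ} (h0 : 0 ≤ s) (h1 : w z * s ≤ k) (h2 : k ≤ 1) :
    c.K s ≤ vd c.R k ⊔ c.P := by
  have h3 := (CD.toH_vis hc).be_le_R (s := s) (k := k) h0 h1 h2
  rw [CD.toH_R] at h3
  exact h3

/-- `h(R_k | P) = (N - ρ) k` -/
theorem CD.Ax.h_R (hc : c.Ax w z ρ) {k : ℝ} (h0 : 0 ≤ k) (h1 : k ≤ 1) : h (vd c.R k) c.P = ((N : ℝ) - ρ) * k := by
  have h2 := (CD.toH_vis hc).h_R (k := k) h0 h1
  rw [CD.toH_R, CD.toH_kap] at h2
  refine h2.trans ?_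
  show ((N : ℝ) - 1 + (1 - ρ)) * k = _
  ring

/-- `h(R_k | K_s, P)`, `k ≥ w z * s` -/
theorem CD.Ax.h_R_K (hc : c.Ax w z ρ) {s k : ℝ} (h0 : 0 ≤ s) (h1 : w z * s ≤ k) (h2 : k ≤ 1) :
    h (vd c.R k) (c.K s ⊔ c.P) = (N : ℝ) * k - (∑ j, w j) * s - ρ * (k - w z * s) := by
  have h3 := (CD.toH_vis hc).h_R_be (s := s) (k := k) h0 h1 h2
  rw [CD.toH_R, CD.toH_kap] at h3
  refine h3.trans ?_
  have h4 : ∑ j, w j = (∑ j ∈ univ.erase z, w j) + w z := (Finset.sum_erase_add univ w (mem_univ z)).symm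
  show ((N : ℝ) - 1 + 1) * k - ((∑ j ∈ univ.erase z, w j) + w z) * s - (1 - (1 - ρ)) * (k - w z * s) = _
  rw [h4]
  ring

/-- `h(z_k | P, M_k) = (1 - ρ) k` -/
theorem CD.Ax.h_z_M (hc : c.Ax w z ρ) {k : ℝ} (h0 : 0 ≤ k) (h1 : k ≤ 1) :
    h (dg (c.R z) k) (vd (c.M z) k ⊔ c.P) = (1 - ρ) * k := by
  have h2 := (CD.toH_vis hc).h_z_M (k := k) h0 h1
  rw [CD.toH_kap] at h2
  exact h2

/-- all intermediate conditions -/
theorem CD.Ax.h_z_mid (hc : c.Ax w z ρ) {k : ℝ} (h0 : 0 ≤ k) (h1 : k ≤ 1) {Y : S.L}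
    (h2 : vd (c.M z) k ≤ Y ⊔ c.P) (h3 : Y ≤ vd (c.M z) 1 ⊔ c.P) : h (dg (c.R z) k) (Y ⊔ c.P) = (1 - ρ) * k := by
  have h4 := (CD.toH_vis hc).h_z_mid (k := k) h0 h1 h2 h3
  rw [CD.toH_kap] at h4
  exact h4

/-- growth of the boxes over the base point -/
theorem CD.Ax.h_KK (hc : c.Ax w z ρ) {s s' : ℝ} (h0 : 0 ≤ s) (h1 : s ≤ s') (h2 : w z * s' ≤ 1) :
    h (c.K s') (c.K s ⊔ c.P) = ((∑ j ∈ univ.erase z, w j) + (1 - ρ) * w z) * (s' - s) := by
  have h3 := (CD.toH hc).h_be_be (s := s) (s' := s') h0 h1 h2 (hc.bx.mono s s' h0 h1 h2)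
  refine h3.trans ?_
  show ((d : ℝ) + 1 + (∑ j ∈ univ.erase z, w j) + (1 - ρ) * w z - ((d : ℝ) + 1)) * (s' - s) = _
  ring

/-- `h(R_k' | R_k, P) = (N - ρ) (k' - k)` -/
theorem CD.Ax.h_RR (hc : c.Ax w z ρ) {k k' : ℝ} (h0 : 0 ≤ k) (h1 : k ≤ k') (h2 : k' ≤ 1) :
    h (vd c.R k') (vd c.R k ⊔ c.P) = ((N : ℝ) - ρ) * (k' - k) := by
  have h3 := (CD.toH_vis hc).h_R_R (k := k) (k' := k') h0 h1 h2
  rw [CD.toH_R, CD.toH_R, CD.toH_kap] at h3
  refine h3.trans ?_
  show ((N : ℝ) - 1 + (1 - ρ)) * (k' - k) = _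
  ring

end num

end

end Pool.Agent.Helper13.AM
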