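import Pool.Agent.Helper13.AM.Cl
import Pool.Agent.Helper10.BLD.St

/-! ALL DIMENSIONS, builder, row AXP: the axioms of a corner without numbers are stable under extensions and on events
(given the same for the labels `Nlw`). -/

set_option autoImplicit false

namespace Pool.Agent.Helper13.AM

open Finset Filter Topology Pool.Agent.Helper69.RK Pool.Agent.Helper31.EC Pool.Agent.Helper31.EC.Sp
open Pool.Agent.Helper31.EC.QS Pool.Agent.Helper10.BLD
open Pool.Agent.Helper82.TP (Lit)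
open Pool.Agent.Helper57.TA (sc wgt)
open Pool.Agent.Helper40.EL (Lab Nul rp)

noncomputable section

variable {S T : Sp} {d N r : ℕ} {c : CD S d N r} {w : Fin N → ℝ} {z : Fin N} {ρ : ℝ}

theorem wd_pull (p : Pj T S) (h : Wd c w) : Wd (c.pull p) w := fun i j k hk => by
  show p.qs (c.cf i j k) = 0
  rw [h i j k hk, map_zero]

theorem wd_rest (E : ∀ k, (S.F k).Ω → Prop) (hE : 0 < ul (S.pr E)) (h : Wd c w) : Wd (c.rest E hE) w :=
  fun i j k hk => by
    show QS.rest E hE (c.cf i j k) = 0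
    rw [h i j k hk, map_zero]

/-- extensions, given the labels -/
theorem ax0_pull (p : Pj T S) (h : Ax0 c w z ρ) (hn : Nlw (c.pull p) w z) : Ax0 (c.pull p) w z ρ :=
  ⟨h.w1, h.wz, h.rho0, h.rho1, h.ln.pull p, wd_pull p h.wd, h.bx.pull p h.w1 h.wz, hn⟩

/-- events, given the labels -/
theorem ax0_rest (E : ∀ k, (S.F k).Ω → Prop) (hE : 0 < ul (S.pr E)) (h : Ax0 c w z ρ)
    (hn : Nlw (c.rest E hE) w z) : Ax0 (c.rest E hE) w z ρ :=
  ⟨h.w1, h.wz, h.rho0, h.rho1, h.ln.rest E hE, wd_rest E hE h.wd, h.bx.rest E hE h.ln.bdd h.w1 h.wz, hn⟩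

/-- [NLWP] the labels under extensions and events -/
def ST_NLWP : Prop := ∀ (S : Sp) (d N r : ℕ) (c : CD S d N r) (w : Fin N → ℝ) (z : Fin N) (ρ : ℝ), Ax0 c w z ρ →
  (∀ (T : Sp) (p : Pj T S), Nlw (c.pull p) w z) ∧
    ∀ (E : ∀ k, (S.F k).Ω → Prop) (hE : 0 < ul (S.pr E)), Nlw (c.rest E hE) w z

theorem axp_of (h : ST_NLWP) : ST_AXP := fun S d N r c w z ρ hc =>
  ⟨fun T p => ax0_pull p hc ((h S d N r c w z ρ hc).1 T p),
    fun E hE => ax0_rest E hE hc ((h S d N r c w z ρ hc).2 E hE)⟩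

end

end Pool.Agent.Helper13.AM
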