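import Pool.Agent.Helper13.AM.Der
import Pool.Agent.Helper50.BLD.Lv
import Pool.Agent.Helper57.TA.Top

/-! ALL DIMENSIONS, exact calculus: THE ZOOM OF A CORNER, definition `CD.zm`; the types of the zoom (`exists_ZT`,
`zm_ln`), the relation `ZR` (`zm_ZR`). -/

set_option autoImplicit false
set_option linter.unusedSectionVars false

namespace Pool.Agent.Helper13.AM

open Finset Filter Topology Pool.Agent.Helper69.RK Pool.Agent.Helper31.EC Pool.Agent.Helper31.EC.Sp
open Pool.Agent.Helper31.EC.QS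
open Pool.Agent.Helper82.TP (Lit)
open Pool.Agent.Helper57.TA (sc wgt top_zero exists_div')
open Pool.Agent.Helper33.CM (h_add_I h_split)
open Pool.Agent.Helper50.BLD (lv lv_bdd lv_io lv_lit)

noncomputable section

namespace CD

variable {S : Sp} {d N r : ℕ}

/-- THE TYPES OF THE ZOOM, before the change of the space: `q - q0 = 2^(-s) X`, `γ = 2^(-w s) Y`, feet `A`, curve
coefficients `Cf` -/
structure ZT (c : CD S d N r) (w : Fin N → ℝ) (s : ℝ) (X : Fin (d + 1) → QS S) (Y : Fin N → QS S)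
    (A : Fin r → Fin (d + 1) → QS S) (g' : ℕ) (Cf : Fin r → Fin N → Fin (g' + 1) → QS S) : Prop where
  hX : ∀ i, c.q i - c.q0 s i = sc S s * X i
  hXd : ∀ i, dg (X i) 1 ≤ dg (c.q i - c.q0 s i) 1
  hY : ∀ j, c.γ s j = sc S (w j * s) * Y j
  hYd : ∀ j, dg (Y j) 1 ≤ dg (c.γ s j) 1
  hA : ∀ i j, c.a i j - c.q0 s j + c.q0 s 0 * c.u i j = sc S s * A i j
  hAd : ∀ i j, dg (A i j) 1 ≤ c.b i ⊔ c.K s
  hC : ∀ i j, c.γ s j = sc S (w j * s) * pe (Cf i j) (X 0)
  hCd : ∀ i j k, dg (Cf i j k) 1 ≤ c.xi i ⊔ c.K s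

/-- THE ZOOM -/
def zm (c : CD S d N r) (Z : ∀ k, Setoid (S.F k).Ω) (e : ℝ) (he : 0 < e) (h1 : e ≤ 1) (s : ℝ)
    (X : Fin (d + 1) → QS S) (Y : Fin N → QS S) (A : Fin r → Fin (d + 1) → QS S) (g' : ℕ)
    (Cf : Fin r → Fin N → Fin (g' + 1) → QS S) (m' : ℝ → ℕ) (G' : ∀ s', Fin (m' s') → QS (S.chg Z e he))
    (q0' : ℝ → Fin (d + 1) → QS (S.chg Z e he))
    (F' : ℝ → Fin N → MvPolynomial (Fin (d + 1) ⊕ Fin N) (QS (S.chg Z e he)))
    (γ' : ℝ → Fin N → QS (S.chg Z e he)) : CD (S.chg Z e he) d N r where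
  q := fun i => cQ Z e he h1 (X i)
  R := fun j => cQ Z e he h1 (Y j)
  al := fun _ _ => Fin ((d + 1) + (d + 1)) → ℤ
  bV := fun i => lv (Fin.append (fun j => cQ Z e he h1 (A i j)) fun j => cQ Z e he h1 (c.u i j))
  a := fun i j => cQ Z e he h1 (A i j)
  u := fun i j => cQ Z e he h1 (c.u i j)
  g := g'
  cf := fun i j k => cQ Z e he h1 (Cf i j k)
  kb := fun s' => c.kb (s + e * s')
  VK := fun s' k ω => c.VK (s + e * s') k ω
  m := m'
  G := G'
  q0 := q0'
  F := F'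
  γ := γ'

variable {c : CD S d N r} {w : Fin N → ℝ} {z : Fin N} {ρ : ℝ}

/-- the height is real beyond the level `s` over the curve and the box -/
theorem time_K (hl : c.Ln) (hb : c.Bx w z) {s : ℝ} (h0 : 0 ≤ s) (h1 : w z * s ≤ 1) (hs : s ≤ 1) (i : Fin r) :
    1 - s ≤ h (dg (c.q 0) 1) (c.xi i ⊔ c.K s) := by
  have e1 : h (dg (c.q 0) 1) (c.xi i) = h (dg (c.q 0) s) (c.xi i) + h (dg (c.q 0) 1) (dg (c.q 0) s ⊔ c.xi i) :=
    h_split ((dg_mono _ hs).trans le_sup_left)
  have e2 : h (dg (c.q 0) s) (c.xi i) ≤ s := (h_le_H _ _).trans (H_dg_le (c.q 0) h0)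
  have e3 : h (dg (c.q 0) 1) (dg (c.q 0) s ⊔ c.xi i) ≤ h (dg (c.q 0) 1) (c.xi i ⊔ c.K s) := by
    apply h_anti
    rw [sup_comm (dg (c.q 0) s)]
    exact sup_le le_sup_left (hb.xi s h0 h1 i)
  rw [hl.time i] at e1
  linarith

/-- a subring contains the box coordinates if it contains the data and the values of the curve -/
theorem gam_mem (hb : c.Bx w z) (hw : ∀ j, 0 < w j) {s : ℝ} (h0 : 0 ≤ s) (h1 : w z * s ≤ 1) (V : Subring (QS S))
    (hR : ∀ j, c.R j ∈ V) (hq : ∀ i, c.q i - c.q0 s i ∈ V) (hF : ∀ j n, (c.F s j).coeff n ∈ V) :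
    ∀ j, c.γ s j ∈ V := by
  intro j
  induction hn : (univ.filter fun l => w l < w j).card using Nat.strong_induction_on generalizing j with
  | _ n ih =>
    have e1 : c.γ s j = c.R j -
        MvPolynomial.eval (Sum.elim (fun i => c.q i - c.q0 s i) (c.γ s)) (c.F s j) := by
      have e2 := hb.fR s h0 h1 j
      linear_combination -e2
    rw [e1]
    refine V.sub_mem (hR j) (eval_mem_sub V _ _ (hF j) fun m hm x hx => ?_)
    rcases x with i | l
    · exact hq i
    · have hl : w l < w j := by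
        refine lt_of_le_of_lt ?_ (hb.deg s j m hm)
        have h2 : (1 : ℝ) ≤ (m (Sum.inr l) : ℝ) := by
          exact_mod_cast Nat.one_le_iff_ne_zero.mpr (Finsupp.mem_support_iff.mp hx)
        have h3 : (m (Sum.inr l) : ℝ) * w l ≤ wgt (Sum.elim (fun _ : Fin (d + 1) => (1 : ℝ)) w) m := by
          unfold wgt
          have h4 := Finset.single_le_sum (f := fun a => (m a : ℝ) * Sum.elim (fun _ : Fin (d + 1) => (1 : ℝ)) w a)
            (s := univ) (fun a _ => by
              refine mul_nonneg (Nat.cast_nonneg _) ?_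
              rcases a with a | a
              · exact zero_le_one
              · exact (hw a).le) (mem_univ (Sum.inr l))
          exact h4
        nlinarith [hw l]
      show c.γ s l ∈ V
      refine ih _ ?_ l rfl
      rw [← hn]
      apply Finset.card_lt_card
      rw [Finset.ssubset_iff_of_subset]
      · exact ⟨l, by simpa using hl, by simp⟩
      · intro a ha
        simp only [mem_filter, mem_univ, true_and] at ha ⊢
        exact ha.trans hl

/-- EXISTENCE OF THE TYPES OF THE ZOOM -/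
theorem exists_ZT (hl : c.Ln) (hb : c.Bx w z) (hw1 : ∀ j, 1 < w j) (hwz : ∀ j, w j ≤ w z) {s : ℝ} (h0 : 0 ≤ s)
    (h1 : w z * s < 1) : ∃ (X : Fin (d + 1) → QS S) (Y : Fin N → QS S) (A : Fin r → Fin (d + 1) → QS S) (g' : ℕ)
      (Cf : Fin r → Fin N → Fin (g' + 1) → QS S), c.ZT w s X Y A g' Cf := by
  classical
  have hw0 : ∀ j, 0 < w j := fun j => zero_lt_one.trans (hw1 j)
  have hs1 : s < 1 := by nlinarith [hw1 z]
  have l0 : ∀ j, 0 ≤ w j * s := fun j => mul_nonneg (hw0 j).le h0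
  have l1 : ∀ j, w j * s ≤ 1 := fun j => (mul_le_mul_of_nonneg_right (hwz j) h0).trans h1.le
  choose X hX hXd using fun i => exists_div' h0 hs1.le (hb.fq s h0 h1.le i)
  choose Y hY hYd using fun j => exists_div' (l0 j) (l1 j) (hb.fγ s h0 h1.le j)
  have hAm : ∀ i j, c.a i j - c.q0 s j + c.q0 s 0 * c.u i j ∈ Id S s := by
    intro i j
    have e1 : c.a i j - c.q0 s j + c.q0 s 0 * c.u i j = (c.q j - c.q0 s j) - (c.q 0 - c.q0 s 0) * c.u i j := by
      rw [hl.line i j]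
      ring
    rw [e1]
    exact (Id S s).sub_mem (hb.fq s h0 h1.le j) ((Id S s).mul_mem_right _ (hb.fq s h0 h1.le 0))
  choose A hA hAd using fun i j => exists_div' h0 hs1.le (hAm i j)
  -- the curve in the zoomed height
  have key : ∀ i j, ∃ p : Polynomial (Kn S 1 le_rfl (c.xi i ⊔ c.K s)), Polynomial.aeval (X 0) p = c.γ s j := by
    intro i
    obtain ⟨K1, hK1⟩ : ∃ K1, K1 = Kn S 1 le_rfl (c.xi i ⊔ c.K s) := ⟨_, rfl⟩
    rw [← hK1]
    have hk : ∀ f : QS S, dg f 1 ≤ c.xi i ⊔ c.K s → f ∈ K1 := fun f hf => by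
      rw [hK1]
      exact hf
    obtain ⟨V, hV⟩ : ∃ V : Subalgebra K1 (QS S), V = Algebra.adjoin K1 {X 0} := ⟨_, rfl⟩
    have hT : X 0 ∈ V := by
      rw [hV]
      exact Algebra.subset_adjoin rfl
    have hkV : ∀ f : QS S, dg f 1 ≤ c.xi i ⊔ c.K s → f ∈ V := fun f hf => V.algebraMap_mem ⟨f, hk f hf⟩
    have hq0 : ∀ a, c.q0 s a ∈ V := fun a => hkV _ (((hb.litq s a).dg_le (hb.bdd s) le_rfl).trans le_sup_right)
    have hsc : sc S s ∈ V := hkV _ ((Helper57.TA.dg_sc _ _).le.trans bot_le)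
    have ht : c.q 0 ∈ V := by
      have e1 : c.q 0 = c.q0 s 0 + sc S s * X 0 := by
        rw [← hX 0]
        ring
      rw [e1]
      exact V.add_mem (hq0 0) (V.mul_mem hsc hT)
    have hau : ∀ a, c.a i a ∈ V ∧ c.u i a ∈ V := fun a =>
      ⟨hkV _ (((dg_le_vd (c.a i) 1 a).trans (hl.a_le i)).trans (le_sup_left.trans le_sup_left)),
        hkV _ (((dg_le_vd (c.u i) 1 a).trans (hl.u_le i)).trans (le_sup_left.trans le_sup_left))⟩
    have hR : ∀ j, c.R j ∈ V := by
      intro j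
      rw [hl.curve i j]
      unfold pe
      refine V.sum_mem fun k _ => V.mul_mem (hkV _ ?_) (V.pow_mem ht _)
      exact ((dg_le_vd (c.cv i) 1 (j, k)).trans le_sup_right).trans le_sup_left
    have hq : ∀ a, c.q a - c.q0 s a ∈ V := by
      intro a
      rw [hl.line i a]
      exact V.sub_mem (V.add_mem (hau a).1 (V.mul_mem ht (hau a).2)) (hq0 a)
    have hF : ∀ j n, (c.F s j).coeff n ∈ V := fun j n =>
      hkV _ (((hb.litF s j n).dg_le (hb.bdd s) le_rfl).trans le_sup_right)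
    intro j
    have h3 : c.γ s j ∈ V := gam_mem hb hw0 h0 h1.le V.toSubring hR hq hF j
    rw [hV, Algebra.adjoin_singleton_eq_range_aeval] at h3
    exact h3
  choose p hp using key
  obtain ⟨g', hg'⟩ : ∃ g' : ℕ, ∀ i j, (p i j).natDegree ≤ g' :=
    ⟨univ.sup fun x : Fin r × Fin N => (p x.1 x.2).natDegree, fun i j =>
      Finset.le_sup (f := fun x : Fin r × Fin N => (p x.1 x.2).natDegree) (mem_univ (i, j))⟩
  obtain ⟨cs, hcs⟩ : ∃ cs : ∀ (i : Fin r) (j : Fin N), Fin (g' + 1) → QS S, cs = fun i j (k : Fin (g' + 1)) =>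
      ((p i j).coeff (k : ℕ) : QS S) := ⟨_, rfl⟩
  have hcd : ∀ i j k, dg (cs i j k) 1 ≤ c.xi i ⊔ c.K s := by
    intro i j k
    rw [hcs]
    exact ((p i j).coeff k).2
  have hpe : ∀ i j, c.γ s j = pe (cs i j) (X 0) := by
    intro i j
    rw [← hp i j, Polynomial.aeval_eq_sum_range' (Nat.lt_succ_of_le (hg' i j)), Finset.sum_range, hcs]
    unfold pe
    refine Finset.sum_congr rfl fun k _ => ?_
    rfl
  have hcm : ∀ i j k, cs i j k ∈ Id S (w j * s) := by
    intro i j k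
    have hl0 : (0 : ℝ) < 1 - s := by linarith
    refine top_zero (cs i j) (X 0) hl0 (by linarith) (le_antisymm ((h_le_H _ _).trans (H_dg_le _ hl0.le)) ?_) (l1 j)
      (by rw [← hpe i j]; exact hb.fγ s h0 h1.le j) k
    have e1 : vd (cs i j) 1 ≤ c.xi i ⊔ c.K s := by
      rw [vd_le]
      exact hcd i j
    refine le_trans ?_ (h_anti e1)
    have e2 := time_K hl hb h0 h1.le hs1.le i
    have e3 : dg (X 0) (1 - s) = dg (c.q 0 - c.q0 s 0) 1 := by
      rw [hX 0, dg_scl (X 0) h0 le_rfl]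
    rw [e3]
    have e4 : h (dg (c.q 0) 1) (c.xi i ⊔ c.K s) ≤ h (dg (c.q 0 - c.q0 s 0) 1) (c.xi i ⊔ c.K s) := by
      have e5 : dg (c.q 0) 1 ≤ dg (c.q 0 - c.q0 s 0) 1 ⊔ (c.xi i ⊔ c.K s) := by
        have e6 : c.q 0 = (c.q 0 - c.q0 s 0) + c.q0 s 0 := by ring
        have e7 := dg_add_le (c.q 0 - c.q0 s 0) (c.q0 s 0) (le_refl (1 : ℝ))
        rw [← e6] at e7
        refine e7.trans (sup_le_sup_left ?_ _)
        exact ((hb.litq s 0).dg_le (hb.bdd s) le_rfl).trans le_sup_right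
      have e8 : h (dg (c.q 0 - c.q0 s 0) 1 ⊔ (c.xi i ⊔ c.K s)) (c.xi i ⊔ c.K s) =
          h (dg (c.q 0 - c.q0 s 0) 1) (c.xi i ⊔ c.K s) := by
        unfold h
        rw [sup_assoc, sup_idem]
      rw [← e8]
      exact h_mono e5
    linarith
  choose Cf hC hCd using fun i j k => exists_div' (l0 j) (l1 j) (hcm i j k)
  refine ⟨X, Y, A, g', Cf, hX, hXd, hY, hYd, hA, ?_, ?_, ?_⟩
  · intro i j
    refine (hAd i j).trans ?_
    apply (Kn S 1 le_rfl (c.b i ⊔ c.K s)).add_mem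
    · apply (Kn S 1 le_rfl (c.b i ⊔ c.K s)).sub_mem
      · exact ((dg_le_vd (c.a i) 1 j).trans (hl.a_le i)).trans le_sup_left
      · exact ((hb.litq s j).dg_le (hb.bdd s) le_rfl).trans le_sup_right
    · apply (Kn S 1 le_rfl (c.b i ⊔ c.K s)).mul_mem
      · exact ((hb.litq s 0).dg_le (hb.bdd s) le_rfl).trans le_sup_right
      · exact ((dg_le_vd (c.u i) 1 j).trans (hl.u_le i)).trans le_sup_left
  · intro i j
    rw [hpe i j]
    unfold pe
    rw [Finset.mul_sum]
    refine Finset.sum_congr rfl fun k _ => ?_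
    rw [hC i j k]
    ring
  · exact fun i j k => (hCd i j k).trans (hcd i j k)

/-! ### the change of the space -/

section chg

variable (hb : ∀ s, Bdd (c.VK s)) {Z : ∀ k, Setoid (S.F k).Ω} {s e : ℝ} (he : 0 < e)
  (hZ : ∀ k, Z k = Setoid.ker (c.VK s k))

include hb hZ

theorem zk_h (x y : S.L) : h (chgL Z e he x) (chgL Z e he y) = h x (y ⊔ c.K s) / e := by
  obtain rfl : Z = fun k => Setoid.ker (c.VK s k) := funext hZ
  have h1 := h_chgL_inf e he (hb s).toInf x y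
  rw [← io_eq (hb s)] at h1
  exact h1

theorem zk_I (x y z : S.L) : I (chgL Z e he x) (chgL Z e he y) (chgL Z e he z) = I x y (z ⊔ c.K s) / e := by
  obtain rfl : Z = fun k => Setoid.ker (c.VK s k) := funext hZ
  have h1 := I_chgL_inf e he (hb s).toInf x y z
  rw [← io_eq (hb s)] at h1
  exact h1

theorem zk_le {x y : S.L} : chgL Z e he x ≤ chgL Z e he y ↔ x ≤ y ⊔ c.K s := by
  rw [← h_eq_zero_iff, zk_h hb he hZ, div_eq_zero_iff, or_iff_left he.ne', h_eq_zero_iff]

theorem zk_sup (x : S.L) : chgL Z e he (x ⊔ c.K s) = chgL Z e he x := by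
  apply le_antisymm
  · exact (zk_le hb he hZ).mpr le_rfl
  · exact chgL_mono _ _ _ le_sup_left

end chg

section zoom

variable {Z : ∀ k, Setoid (S.F k).Ω} {s e : ℝ} {he : 0 < e} {h1 : e ≤ 1}
  {X : Fin (d + 1) → QS S} {Y : Fin N → QS S} {A : Fin r → Fin (d + 1) → QS S} {g' : ℕ}
  {Cf : Fin r → Fin N → Fin (g' + 1) → QS S} {m' : ℝ → ℕ} {G' : ∀ s', Fin (m' s') → QS (S.chg Z e he)}
  {q0' : ℝ → Fin (d + 1) → QS (S.chg Z e he)}
  {F' : ℝ → Fin N → MvPolynomial (Fin (d + 1) ⊕ Fin N) (QS (S.chg Z e he))}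
  {γ' : ℝ → Fin N → QS (S.chg Z e he)}

theorem zm_b (i : Fin r) : (c.zm Z e he h1 s X Y A g' Cf m' G' q0' F' γ').b i =
    chgL Z e he (vd (A i) e ⊔ vd (c.u i) e) := by
  show io (lv (Fin.append (fun j => cQ Z e he h1 (A i j)) fun j => cQ Z e he h1 (c.u i j))) = _
  rw [lv_io, chgL_sup]
  have e1 : vd (fun j => cQ Z e he h1 (A i j)) 1 = chgL Z e he (vd (A i) e) := by
    rw [cQ_vd Z e he h1 (A i) le_rfl, mul_one]
  have e2 : vd (fun j => cQ Z e he h1 (c.u i j)) 1 = chgL Z e he (vd (c.u i) e) := by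
    rw [cQ_vd Z e he h1 (c.u i) le_rfl, mul_one]
  rw [← e1, ← e2]
  apply le_antisymm
  · rw [vd_le]
    intro x
    refine Fin.addCases (fun j => ?_) (fun j => ?_) x
    · rw [Fin.append_left]
      exact (dg_le_vd (fun j => cQ Z e he h1 (A i j)) 1 j).trans le_sup_left
    · rw [Fin.append_right]
      exact (dg_le_vd (fun j => cQ Z e he h1 (c.u i j)) 1 j).trans le_sup_right
  · refine sup_le ?_ ?_
    · rw [vd_le]
      intro j
      have e3 := dg_le_vd (Fin.append (fun j => cQ Z e he h1 (A i j)) fun j => cQ Z e he h1 (c.u i j)) 1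
        (Fin.castAdd (d + 1) j)
      rwa [Fin.append_left] at e3
    · rw [vd_le]
      intro j
      have e3 := dg_le_vd (Fin.append (fun j => cQ Z e he h1 (A i j)) fun j => cQ Z e he h1 (c.u i j)) 1
        (Fin.natAdd (d + 1) j)
      rwa [Fin.append_right] at e3

variable (hl : c.Ln) (hb : c.Bx w z) (hT : c.ZT w s X Y A g' Cf) (hZ : ∀ k, Z k = Setoid.ker (c.VK s k))

include hl hb hT hZ

/-- the zoom is a zoom -/
theorem zm_ZR : c.ZR w z s e he h1 Z (c.zm Z e he h1 s X Y A g' Cf m' G' q0' F' γ') := by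
  have hB : ∀ i, (c.zm Z e he h1 s X Y A g' Cf m' G' q0' F' γ').b i ≤ chgL Z e he (c.b i) := by
    intro i
    rw [zm_b, zk_le hb.bdd he hZ]
    refine sup_le ?_ ?_
    · rw [vd_le]
      exact fun j => (dg_mono _ h1).trans (hT.hAd i j)
    · exact (vd_mono _ h1).trans ((hl.u_le i).trans le_sup_left)
  refine ⟨hZ, fun i => ⟨X i, hT.hX i, rfl⟩, fun j => ⟨Y j, hT.hY j, rfl⟩, fun _ _ => rfl, hB, fun i => ?_,
    fun s' _ _ k ω ω' _ _ _ => Iff.rfl⟩
  refine sup_le ((hB i).trans (chgL_mono _ _ _ le_sup_left)) ?_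
  have e1 : vd ((c.zm Z e he h1 s X Y A g' Cf m' G' q0' F' γ').cv i) 1 =
      chgL Z e he (vd (fun x : Fin N × Fin (g' + 1) => Cf i x.1 x.2) e) := by
    have e2 := cQ_vd Z e he h1 (fun x : Fin N × Fin (g' + 1) => Cf i x.1 x.2) (le_refl (1 : ℝ))
    rw [mul_one] at e2
    exact e2
  rw [e1, zk_le hb.bdd he hZ, vd_le]
  exact fun x => (dg_mono _ h1).trans (hT.hCd i x.1 x.2)

omit hl hb hT hZ in
/-- relations after the change of the space -/
theorem cQ_of_sc {f g : QS S} {u : ℝ} (hu : 0 ≤ u) (hue : u + e ≤ 1) (hfg : sc S u * f = sc S u * g) :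
    cQ Z e he h1 f = cQ Z e he h1 g := by
  rw [cQ_eq]
  have e1 : sc S u * (f - g) ∈ Id S 1 := by
    rw [mul_sub, hfg, sub_self]
    exact (Id S 1).zero_mem
  rw [Helper57.TA.sc_mul_mem_iff hu le_rfl] at e1
  exact Id_anti (by linarith) e1

/-- the zoomed base point is real over the box -/
theorem X_real (hp0 : I (c.K s) c.P ⊥ = ((d : ℝ) + 1) * s) (h0 : 0 ≤ s) (hs1 : s ≤ 1) {k : ℝ} (k0 : 0 ≤ k)
    (hk : k ≤ 1 - s) : h (vd X k) (c.K s) = ((d : ℝ) + 1) * k := by
  have e1 : Helper57.TA.Rt (1 - s) X (c.K s) := by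
    apply Helper57.TA.Rt.of_ge (by linarith)
    rw [Fintype.card_fin]
    have e2 : h c.P ⊥ = (d : ℝ) + 1 := by
      have e3 := hl.real
      unfold Rl at e3
      rw [Fintype.card_fin] at e3
      push_cast at e3
      exact e3
    have e3 : I (c.K s) c.P ⊥ = h c.P ⊥ - h c.P (c.K s ⊔ ⊥) := I_eq' _ _ _
    rw [sup_bot_eq, hp0, e2] at e3
    have e4 : h c.P (c.K s) ≤ h (vd X (1 - s)) (c.K s) := by
      have e5 : c.P ≤ vd X (1 - s) ⊔ c.K s := by
        unfold P
        rw [vd_le]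
        intro i
        have e6 : c.q i = sc S s * X i + c.q0 s i := by
          rw [← hT.hX i]
          ring
        rw [e6]
        refine (dg_add_le _ _ (le_refl (1 : ℝ))).trans (sup_le ?_ ?_)
        · rw [dg_scl (X i) h0 le_rfl]
          exact (dg_le_vd X (1 - s) i).trans le_sup_left
        · exact ((hb.litq s i).dg_le (hb.bdd s) le_rfl).trans le_sup_right
      have e7 : h c.P (c.K s) ≤ h (vd X (1 - s) ⊔ c.K s) (c.K s) := h_mono e5
      have e8 : h (vd X (1 - s) ⊔ c.K s) (c.K s) = h (vd X (1 - s)) (c.K s) := by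
        unfold h
        rw [sup_assoc, sup_idem]
      rwa [e8] at e7
    push_cast
    linarith
  have e2 := Helper57.TA.Rt.mono k0 e1 hk
  unfold Helper57.TA.Rt at e2
  rw [Fintype.card_fin] at e2
  push_cast at e2
  exact e2

/-- ALL AXIOMS OF THE TYPES OF THE ZOOM -/
theorem zm_ln (hp0 : I (c.K s) c.P ⊥ = ((d : ℝ) + 1) * s) (hw1 : ∀ j, 1 < w j) (hwz : ∀ j, w j ≤ w z) (h0 : 0 ≤ s)
    (hse : w z * s + e ≤ 1) : (c.zm Z e he h1 s X Y A g' Cf m' G' q0' F' γ').Ln := by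
  have hsw : s ≤ w z * s := by nlinarith [hw1 z]
  have hs1 : s ≤ 1 := by linarith
  have hws : w z * s ≤ 1 := by linarith
  have hes : e ≤ 1 - s := by linarith
  have l0 : ∀ j, 0 ≤ w j * s := fun j => mul_nonneg (zero_lt_one.trans (hw1 j)).le h0
  have l1 : ∀ j, w j * s ≤ w z * s := fun j => mul_le_mul_of_nonneg_right (hwz j) h0
  have hR := c.zm_ZR (he := he) (h1 := h1) (m' := m') (G' := G') (q0' := q0') (F' := F') (γ' := γ') hl hb hT hZ
  refine ⟨?_, fun i => lv_bdd _, fun i j => ⟨?_, ?_⟩, fun i => ?_, fun i => ?_, fun i => ?_, fun i j => ?_,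
    fun i j => ?_, fun i => ?_, ?_⟩
  · -- real
    show h (vd (fun i => cQ Z e he h1 (X i)) 1) ⊥ = _
    rw [cQ_vd Z e he h1 X le_rfl, mul_one, ← chgL_bot Z e he, zk_h hb.bdd he hZ, bot_sup_eq,
      c.X_real hl hb hT hZ hp0 h0 hs1 he.le hes, Fintype.card_fin]
    push_cast
    field_simp
  · have e3 := lv_lit (Fin.append (fun j => cQ Z e he h1 (A i j)) fun j => cQ Z e he h1 (c.u i j)) (Fin.castAdd (d + 1) j)
    rwa [Fin.append_left] at e3
  · have e3 := lv_lit (Fin.append (fun j => cQ Z e he h1 (A i j)) fun j => cQ Z e he h1 (c.u i j)) (Fin.natAdd (d + 1) j)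
    rwa [Fin.append_right] at e3
  · rw [zm_b, chgL_sup]
    show _ = vd (fun j => cQ Z e he h1 (A i j)) 1 ⊔ vd (fun j => cQ Z e he h1 (c.u i j)) 1
    rw [cQ_vd Z e he h1 (A i) le_rfl, cQ_vd Z e he h1 (c.u i) le_rfl, mul_one]
  · show cQ Z e he h1 (A i 0) = 0
    rw [← map_zero (cQ Z e he h1)]
    apply cQ_of_sc h0 (by linarith)
    rw [← hT.hA i 0, hl.a0 i, hl.u0 i]
    ring
  · show cQ Z e he h1 (c.u i 0) = 1
    rw [hl.u0 i, map_one]
  · show cQ Z e he h1 (X j) = cQ Z e he h1 (A i j) + cQ Z e he h1 (X 0) * cQ Z e he h1 (c.u i j)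
    rw [← map_mul, ← map_add]
    apply cQ_of_sc h0 (by linarith)
    rw [← hT.hX j, mul_add, ← hT.hA i j, ← mul_assoc, ← hT.hX 0, hl.line i j]
    ring
  · show cQ Z e he h1 (Y j) = pe (fun k => cQ Z e he h1 (Cf i j k)) (cQ Z e he h1 (X 0))
    have e1 : pe (fun k => cQ Z e he h1 (Cf i j k)) (cQ Z e he h1 (X 0)) = cQ Z e he h1 (pe (Cf i j) (X 0)) := by
      unfold pe
      rw [map_sum]
      refine Finset.sum_congr rfl fun k _ => ?_
      rw [map_mul, map_pow]
    rw [e1]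
    apply cQ_of_sc (l0 j) (by linarith [l1 j])
    rw [← hT.hY j, ← hT.hC i j]
  · -- time
    apply le_antisymm ((h_le_H _ _).trans (H_dg_le _ zero_le_one))
    refine le_trans ?_ (h_anti (hR.xi i))
    show 1 ≤ h (dg (cQ Z e he h1 (X 0)) 1) (chgL Z e he (c.xi i))
    rw [cQ_dg Z e he h1 (X 0) le_rfl, mul_one, zk_h hb.bdd he hZ, le_div_iff₀ he, one_mul]
    have e1 : Helper57.TA.Rt (1 - s) (fun _ : Fin 1 => X 0) (c.xi i ⊔ c.K s) := by
      apply Helper57.TA.Rt.of_ge (by linarith)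
      have e2 : vd (fun _ : Fin 1 => X 0) (1 - s) = dg (X 0) (1 - s) := by
        apply le_antisymm
        · rw [vd_le]
          exact fun _ => le_rfl
        · exact dg_le_vd (fun _ : Fin 1 => X 0) (1 - s) 0
      rw [e2, Fintype.card_fin]
      have e3 := time_K hl hb h0 hws hs1 i
      have e4 : h (dg (c.q 0) 1) (c.xi i ⊔ c.K s) ≤ h (dg (X 0) (1 - s)) (c.xi i ⊔ c.K s) := by
        have e5 : dg (c.q 0) 1 ≤ dg (X 0) (1 - s) ⊔ (c.xi i ⊔ c.K s) := by
          have e6 : c.q 0 = sc S s * X 0 + c.q0 s 0 := by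
            rw [← hT.hX 0]
            ring
          rw [e6]
          refine (dg_add_le _ _ (le_refl (1 : ℝ))).trans (sup_le ?_ ?_)
          · rw [dg_scl (X 0) h0 le_rfl]
            exact le_sup_left
          · exact (((hb.litq s 0).dg_le (hb.bdd s) le_rfl).trans le_sup_right).trans le_sup_right
        have e7 : h (dg (X 0) (1 - s) ⊔ (c.xi i ⊔ c.K s)) (c.xi i ⊔ c.K s) = h (dg (X 0) (1 - s)) (c.xi i ⊔ c.K s) := by
          unfold h
          rw [sup_assoc, sup_idem]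
        rw [← e7]
        exact h_mono e5
      push_cast
      linarith
    have e2 := Helper57.TA.Rt.mono he.le e1 hes
    unfold Helper57.TA.Rt at e2
    have e3 : vd (fun _ : Fin 1 => X 0) e = dg (X 0) e := by
      apply le_antisymm
      · rw [vd_le]
        exact fun _ => le_rfl
      · exact dg_le_vd (fun _ : Fin 1 => X 0) e 0
    rw [e3, Fintype.card_fin] at e2
    push_cast at e2
    linarith
  · -- (R1)
    have hKO : c.K s ≤ c.O := Bx.K_le hb h0 hws
    have e1 : I (univ.sup fun i => vd (c.u i) 1) c.O (c.K s) = 0 := by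
      have e2 : I (univ.sup fun i => vd (c.u i) 1) (c.K s ⊔ c.O) ⊥ = 0 := by
        rw [sup_eq_right.mpr hKO]
        exact hl.r1
      rw [I_chain_right, sup_bot_eq] at e2
      have e3 := I_nonneg (univ.sup fun i => vd (c.u i) 1) (c.K s) ⊥
      have e4 := I_nonneg (univ.sup fun i => vd (c.u i) 1) c.O (c.K s)
      linarith
    have e2 : I (chgL Z e he (univ.sup fun i => vd (c.u i) 1)) (chgL Z e he c.O) (chgL Z e he ⊥) = 0 := by
      rw [zk_I hb.bdd he hZ, bot_sup_eq, e1, zero_div]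
    refine I_zero_mono e2 ?_ ?_
    · rw [sup_bot_eq, chgL_finsup]
      refine Finset.sup_mono_fun fun i _ => ?_
      show vd (fun j => cQ Z e he h1 (c.u i j)) 1 ≤ _
      rw [cQ_vd Z e he h1 (c.u i) le_rfl, mul_one]
      exact chgL_mono _ _ _ (vd_mono _ h1)
    · rw [sup_bot_eq]
      refine sup_le ?_ ?_
      · show vd (fun j => cQ Z e he h1 (X j)) 1 ≤ _
        rw [cQ_vd Z e he h1 X le_rfl, mul_one, zk_le hb.bdd he hZ, vd_le]
        intro j
        refine (dg_mono _ h1).trans ((hT.hXd j).trans ((dg_sub_le _ _ le_rfl).trans (sup_le ?_ ?_)))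
        · exact (dg_le_vd c.q 1 j).trans (P_le_O.trans le_sup_left)
        · exact ((hb.litq s j).dg_le (hb.bdd s) le_rfl).trans le_sup_right
      · show vd (fun j => cQ Z e he h1 (Y j)) 1 ≤ _
        rw [cQ_vd Z e he h1 Y le_rfl, mul_one, zk_le hb.bdd he hZ, vd_le]
        intro j
        refine (dg_mono _ h1).trans ((hT.hYd j).trans ?_)
        have e3 := hb.gam_le (X := vd c.R 1) (fun j => zero_lt_one.trans (hw1 j)) h0 hws le_rfl j
          fun l _ => dg_le_vd c.R 1 l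
        refine e3.trans (sup_le (R_le_O.trans le_sup_left) (sup_le le_sup_right (P_le_O.trans le_sup_left)))

end zoom

end CD

end

end Pool.Agent.Helper13.AM
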