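import Pool.Agent.Helper13.AM.Blk
import Pool.Agent.Helper36.AM.St

/-! ALL DIMENSIONS: from THEOREM BLOCK of the exact calculus to helper36's `BLK` (level of systems of leaves). -/

set_option autoImplicit false

namespace Pool.Agent.Helper13.AM

open Pool.Agent.Helper31.EC Pool.Agent.Helper31.EC.Sp Pool.Agent.Helper84.MT Pool.Agent.Helper36.AM

noncomputable section

/-- what the builder has to produce: a nonempty class of corners of the exact calculus with all hypotheses of BLOCK -/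
def CorOut : Prop := ∃ (d N r : ℕ) (w : Fin N → ℝ) (z : Fin N) (ρ : ℝ) (C : ∀ S : Sp, CD S d N r → Prop),
  1 ≤ d ∧ Cls d N r w z ρ C ∧ AD C ∧ YY w z C ∧ PR w C ∧ NR C ∧ ∃ (S : Sp) (c : CD S d N r), C S c

theorem corOut_false (hB : BLOCK) : ¬ CorOut := by
  rintro ⟨d, N, r, w, z, ρ, C, h1, h2, h3, h4, h5, h6, S, c, h7⟩
  exact hB d N r w z ρ C h1 h2 h3 h4 h5 h6 S c h7

variable (DK : ∀ (M : ℕ), ℕ → MCl M)

/-- [SAT] (helper67) not all weights are one -/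
def ST_SAT (M : ℕ) : Prop := (∀ m, m < M + 1 → ST m) → ∀ (Cl : MCl (M + 1)) (g r : ℕ) (w : Fin (M + 1) → ℝ) (ρ : ℝ)
  TT, Hom M Cl g r w ρ TT → 1 ≤ M → 1 < w (Fin.last M)

/-- [BLD] (helper10, helper71, ..) the builder for at least two weights one -/
def ST_BLD (M : ℕ) : Prop := (∀ m, m < M + 1 → ST m) → ∀ (Cl : MCl (M + 1)) (g r : ℕ) (w : Fin (M + 1) → ℝ) (ρ : ℝ)
  TT, Hom M Cl g r w ρ TT → 2 ≤ nd1 w → 1 < w (Fin.last M) → STO (M + 1) (DK (M + 1) (nd1 w + 1)) → CorOut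

/-- [BLD1] (helper10, helper5, helper21, helper37, helper75) one weight one: the corner of the prolonged system -/
def ST_BLD1 (CC : ∀ (M : ℕ), ℕ → MCl M) (M : ℕ) : Prop := (∀ m, m < M + 2 → ST m) → ∀ (Cl : MCl (M + 2)) (g r : ℕ)
  (w : Fin (M + 2) → ℝ) (ρ : ℝ) TT, Hom (M + 1) Cl g r w ρ TT → nd1 w = 1 → STO (M + 2) (DK (M + 2) 2) →
    ∃ K : ℕ, 2 ≤ K ∧ w 1 = K ∧ (STO (M + 2) (CC (M + 2) (K - 2)) → CorOut)

theorem blk_of (hB : BLOCK) {M : ℕ} (hM : 1 ≤ M) (hS : ST_SAT M) (hD : ST_BLD DK M) : BLK DK M := by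
  intro hst Cl g r w ρ TT hT hn hs
  exact corOut_false hB (hD hst Cl g r w ρ TT hT hn (hS hst Cl g r w ρ TT hT hM) hs)

theorem blk1_of (CC : ∀ (M : ℕ), ℕ → MCl M) (hB : BLOCK) {M : ℕ} (hD : ST_BLD1 DK CC M) : BLK1 DK CC M := by
  intro hst Cl g r w ρ TT hT hn hs
  obtain ⟨K, h1, h2, h3⟩ := hD hst Cl g r w ρ TT hT hn hs
  exact ⟨K, h1, h2, fun h4 => corOut_false hB (h3 h4)⟩

end

end Pool.Agent.Helper13.AM
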