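import Pool.Agent.Helper13.AM.Cor
import Pool.Agent.Helper38.NS.Wvq

/-! ALL DIMENSIONS, level of the exact calculus: THEOREM BLOCK (`block`, proved from the frozen statements below): a
class of corners over a base of dimension `1 + d`, `d ≥ 1`, with (AD), (Y), (PR), (H) is empty. -/

set_option autoImplicit false

namespace Pool.Agent.Helper13.AM

open Pool.Agent.Helper31.EC Pool.Agent.Helper31.EC.Sp Pool.Agent.Helper31.EC.QS

noncomputable section

/-- [ZPL] the vertical systems of a class of corners form a class for RIG (helper95) -/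
def ST_ZPL : Prop := ∀ (d N r : ℕ) (w : Fin N → ℝ) (z : Fin N) (ρ : ℝ) (C : ∀ S : Sp, CD S d N r → Prop),
  Cls d N r w z ρ C → AD C → Helper95.RIG.RCls N (fun S v => ∃ c : CD S d N r, C S c ∧ v = c.toVS w z)

/-- [THA] sections 2, 3 of CORNERm: Theorem R gives a corner of the class which is flat up to a positive level
(helper57, helper14, helper79, helper92) -/
def ST_THA : Prop := ∀ (d N r : ℕ) (w : Fin N → ℝ) (z : Fin N) (ρ : ℝ) (C : ∀ S : Sp, CD S d N r → Prop),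
  1 ≤ d → Cls d N r w z ρ C → TRs w z C → (∃ S c, C S c) →
    ∃ (S : Sp) (c : CD S d N r) (κ : ℝ), C S c ∧ 0 < κ ∧ κ ≤ 1 ∧ Flat w c κ

/-- [HLD] coordinates of a zoom `c'` of `c` which are flat over the lines and curves of `c` are flat over its own
lines and curves, up to a smaller level (two curves through the same visible point with the same visible direction
stay in one box); `s = 0`, `e < 1`: truncation -/
def ST_HLD : Prop := ∀ (d N r : ℕ) (w : Fin N → ℝ) (z : Fin N) (ρ : ℝ) (C : ∀ S : Sp, CD S d N r → Prop),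
  Cls d N r w z ρ C → ∀ (S : Sp) (c : CD S d N r), C S c → ∀ (s e : ℝ) (he : 0 < e) (h1 : e ≤ 1), 0 ≤ s →
    w z * s + e ≤ 1 → ∀ (Z : ∀ k, Setoid (S.F k).Ω) (c' : CD (S.chg Z e he) d N r), c.ZR w z s e he h1 Z c' →
      C _ c' → ∀ κ : ℝ, 0 < κ → κ ≤ 1 → ∃ κ' : ℝ, 0 < κ' ∧ κ' ≤ κ ∧
        ∀ H : Fin N → MvPolynomial (Fin (d + 1) ⊕ Fin N) (QS (S.chg Z e he)), Tri w H →
          FlatH c' κ H (fun i => chgL Z e he (c.b i)) (fun i => chgL Z e he (c.xi i)) → FlatH c' κ' H c'.b c'.xi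

/-- THEOREM W for vectors (58, 61, 38) -/
def ST_WVQ : Prop := ∀ (N : ℕ) (ρ : ℝ), 0 < ρ → ρ ≤ 1 → ∃ θ : ℝ, 0 < θ ∧ θ ≤ 1 ∧ Helper38.NS.WVQ N ρ θ

/-- [UQC] section 4 of CORNERm: a flat corner does not exist (helper45 with helper50's flat consumer) -/
def ST_UQC : Prop := ∀ (d N r : ℕ) (w : Fin N → ℝ) (z : Fin N) (ρ : ℝ) (C : ∀ S : Sp, CD S d N r → Prop),
  1 ≤ d → Cls d N r w z ρ C → PR w C → NR C → ∀ (S : Sp) (c : CD S d N r) (κ : ℝ), C S c → 0 < κ → κ ≤ 1 →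
    Flat w c κ → False

/-- [TCA] the view as a corner of helper95 satisfies his axioms (helper13) -/
def ST_TCA : Prop := ∀ (S : Sp) (d N r : ℕ) (c : CD S d N r) (w : Fin N → ℝ) (z : Fin N) (ρ : ℝ), c.Ax w z ρ →
  (c.toCor w z).Ax z ρ

theorem pull_K {S T : Sp} {d N r : ℕ} (c : CD S d N r) (p : Pj T S) (s : ℝ) : (c.pull p).K s = p.map (c.K s) :=
  (p.map_io (c.VK s)).symm

theorem pull_P {S T : Sp} {d N r : ℕ} (c : CD S d N r) (p : Pj T S) : (c.pull p).P = p.map c.P := p.qs_vd c.q 1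

/-- THEOREM R for all corners of the class -/
theorem trs_of (hS : Helper95.RIG.ST_SLICE) (hA : Helper95.RIG.ST_RIGA) (hT : ST_TCA) (hZ : ST_ZPL) {d N r : ℕ}
    {w : Fin N → ℝ} {z : Fin N} {ρ : ℝ} {C : ∀ S : Sp, CD S d N r → Prop} (hC : Cls d N r w z ρ C) (hq : AD C)
    (hy : YY w z C) : TRs w z C := by
  intro S c hc i
  refine Helper95.RIG.Cor.thmR_of_FibT (c := c.toCor w z) hS (hT S d N r c w z ρ (hC.ax S c hc)) ?_ i (hy S c hc i)
  intro T p V h1 h2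
  have h3 := hA N _ (hZ d N r w z ρ C hC hq) T ((c.pull p).toVS w z) ⟨c.pull p, hC.pull S c hc T p, rfl⟩ V
    ((pull_P c p).le.trans h1) h2
  exact (pull_K c p (1 / w z)).symm.le.trans h3

/-- THEOREM BLOCK -/
def BLOCK : Prop := ∀ (d N r : ℕ) (w : Fin N → ℝ) (z : Fin N) (ρ : ℝ) (C : ∀ S : Sp, CD S d N r → Prop),
  1 ≤ d → Cls d N r w z ρ C → AD C → YY w z C → PR w C → NR C → ∀ (S : Sp) (c : CD S d N r), C S c → False

theorem block (hS : Helper95.RIG.ST_SLICE) (hA : Helper95.RIG.ST_RIGA) (hTC : ST_TCA) (hZ : ST_ZPL) (hT : ST_THA)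
    (hU : ST_UQC) : BLOCK := by
  intro d N r w z ρ C hd hC hq hy hp hn S c hc
  obtain ⟨S', c', κ, h1, h2, h3, h4⟩ := hT d N r w z ρ C hd hC (trs_of hS hA hTC hZ hC hq hy) ⟨S, c, hc⟩
  exact hU d N r w z ρ C hd hC hp hn S' c' κ h1 h2 h3 h4

end

end Pool.Agent.Helper13.AM
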