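import Pool.Agent.Helper13.AM.Zq
import Pool.Agent.Helper40.EL.D3
import Pool.Agent.Helper5.DO.Pro
import Pool.Agent.Helper57.TA.Str
import Pool.Agent.Helper96.FWC.Uq
import Pool.Agent.Helper56.STL.Fbt
import Pool.Agent.Helper82.TP.Copy
import Pool.Agent.Helper33.CM.Num

/-! ALL DIMENSIONS, level of the exact calculus: the CORNER (data `CD`, axioms `Ax`), its zooms (`ZR`, including
truncation), classes of corners (`Cls`), and the hypotheses (AD), (Y), (PR), (H), labels.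

`q = (t, y)` in `R ^ (1 + d)`, `R` in `R ^ N` (all vertical coordinates), weights `w j > 1`, `z` = a coordinate of the
highest weight, `rho` = deficit. Scales of boxes: `0 ≤ s`, `w z * s ≤ 1`. Level `1` = resolution of the space. -/

set_option autoImplicit false

namespace Pool.Agent.Helper13.AM

open Finset Filter Topology Pool.Agent.Helper69.RK Pool.Agent.Helper31.EC Pool.Agent.Helper31.EC.Sp
open Pool.Agent.Helper31.EC.QS
open Pool.Agent.Helper82.TP (Lit)
open Pool.Agent.Helper57.TA (sc wgt)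
open Pool.Agent.Helper40.EL (Lab Nul rp)

noncomputable section

/-- DATA OF A CORNER -/
structure CD (S : Sp) (d N r : ℕ) where
  /-- base point, `q 0 = t` = height -/
  q : Fin (d + 1) → QS S
  /-- vertical coordinates -/
  R : Fin N → QS S
  /-- literal variable of the base line of type `i` -/
  al : Fin r → ℕ → Type
  bV : ∀ i k, (S.F k).Ω → al i k
  /-- foot and direction: `q = a + t u`, `a 0 = 0`, `u 0 = 1` -/
  a : Fin r → Fin (d + 1) → QS S
  u : Fin r → Fin (d + 1) → QS S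
  /-- curves: `R j = Σ cf j k t ^ k`, `k ≤ g` -/
  g : ℕ
  cf : Fin r → Fin N → Fin (g + 1) → QS S
  /-- literal variable of the box of scale `s` -/
  kb : ℝ → ℕ → Type
  VK : ∀ s k, (S.F k).Ω → kb s k
  /-- finitely many functions (literal functions of `VK s`) which generate the box and determine the frame -/
  m : ℝ → ℕ
  G : ∀ s, Fin (m s) → QS S
  /-- frame of scale `s`: `R j = F s j (q - q0 s, γ s) + γ s j` -/
  q0 : ℝ → Fin (d + 1) → QS S
  F : ℝ → Fin N → MvPolynomial (Fin (d + 1) ⊕ Fin N) (QS S)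
  γ : ℝ → Fin N → QS S

namespace CD

variable {S : Sp} {d N r : ℕ} (c : CD S d N r)

/-- digits of the base point to the resolution -/
def P : S.L := vd c.q 1

/-- digits of the point to the resolution -/
def O : S.L := vd c.q 1 ⊔ vd c.R 1

/-- base line of type `i` -/
def b (i : Fin r) : S.L := io (c.bV i)

/-- all curve coefficients of type `i` -/
def cv (i : Fin r) (x : Fin N × Fin (c.g + 1)) : QS S := c.cf i x.1 x.2

/-- curve of type `i` -/
def xi (i : Fin r) : S.L := c.b i ⊔ vd (c.cv i) 1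

/-- the box of scale `s` -/
def K (s : ℝ) : S.L := io (c.VK s)

/-- the point -/
def pt : Fin (d + 1) ⊕ Fin N → QS S := Sum.elim c.q c.R

/-- vertical coordinates without `z` -/
def M (z : Fin N) : {j : Fin N // j ≠ z} → QS S := fun j => c.R j.1

/-- extension of the space -/
def pull {T : Sp} (p : Pj T S) : CD T d N r where
  q := fun i => p.qs (c.q i)
  R := fun j => p.qs (c.R j)
  al := c.al
  bV := fun i k ω => c.bV i k (p.π k ω)
  a := fun i j => p.qs (c.a i j)
  u := fun i j => p.qs (c.u i j)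
  g := c.g
  cf := fun i j k => p.qs (c.cf i j k)
  kb := c.kb
  VK := fun s k ω => c.VK s k (p.π k ω)
  m := c.m
  G := fun s a => p.qs (c.G s a)
  q0 := fun s i => p.qs (c.q0 s i)
  F := fun s j => MvPolynomial.map p.qs (c.F s j)
  γ := fun s j => p.qs (c.γ s j)

/-- restriction to an event of positive probability -/
def rest (E : ∀ k, (S.F k).Ω → Prop) (hE : 0 < ul (S.pr E)) : CD (S.rest E) d N r where
  q := fun i => QS.rest E hE (c.q i)
  R := fun j => QS.rest E hE (c.R j)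
  al := c.al
  bV := c.bV
  a := fun i j => QS.rest E hE (c.a i j)
  u := fun i j => QS.rest E hE (c.u i j)
  g := c.g
  cf := fun i j k => QS.rest E hE (c.cf i j k)
  kb := c.kb
  VK := c.VK
  m := c.m
  G := fun s a => QS.rest E hE (c.G s a)
  q0 := fun s i => QS.rest E hE (c.q0 s i)
  F := fun s j => MvPolynomial.map (QS.rest E hE) (c.F s j)
  γ := fun s j => QS.rest E hE (c.γ s j)

/-! ### axioms -/

/-- axioms on the point and on the types -/
structure Ln : Prop where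
  /-- the base point is full -/
  real : Rl c.q ⊥
  bdd : ∀ i, Bdd (c.bV i)
  lit : ∀ i j, Lit (c.bV i) (c.a i j) ∧ Lit (c.bV i) (c.u i j)
  gen : ∀ i, c.b i = vd (c.a i) 1 ⊔ vd (c.u i) 1
  a0 : ∀ i, c.a i 0 = 0
  u0 : ∀ i, c.u i 0 = 1
  line : ∀ i j, c.q j = c.a i j + c.q 0 * c.u i j
  curve : ∀ i j, c.R j = pe (c.cf i j) (c.q 0)
  /-- (F1) the height is real over the curve -/
  time : ∀ i, h (dg (c.q 0) 1) (c.xi i) = 1
  /-- (R1) the directions are independent of the point -/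
  r1 : I (univ.sup fun i => vd (c.u i) 1) c.O ⊥ = 0

/-- axioms on the boxes and their frames -/
structure Bx (w : Fin N → ℝ) (z : Fin N) : Prop where
  bdd : ∀ s, Bdd (c.VK s)
  /-- the box of scale `0` is the base -/
  zero : ∀ k ω ω', (S.F k).μ ω ≠ 0 → (S.F k).μ ω' ≠ 0 → (S.F k).Z ω ω' → c.VK 0 k ω = c.VK 0 k ω'
  lit : ∀ s a, Lit (c.VK s) (c.G s a)
  gen : ∀ s, 0 ≤ s → w z * s ≤ 1 → c.K s = vd (c.G s) 1
  mono : ∀ s s', 0 ≤ s → s ≤ s' → w z * s' ≤ 1 → c.K s ≤ c.K s'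
  /-- the box is a function of the digits of level `w z * s` of the point -/
  pt : ∀ s, 0 ≤ s → w z * s ≤ 1 → c.K s ≤ vd c.q (w z * s) ⊔ vd c.R (w z * s)
  /-- the box is a function of the curve and of the cell of level `s` of the height -/
  xi : ∀ s, 0 ≤ s → w z * s ≤ 1 → ∀ i, c.K s ≤ c.xi i ⊔ dg (c.q 0) s
  /-- frames -/
  fq : ∀ s, 0 ≤ s → w z * s ≤ 1 → ∀ i, c.q i - c.q0 s i ∈ Id S s
  fγ : ∀ s, 0 ≤ s → w z * s ≤ 1 → ∀ j, c.γ s j ∈ Id S (w j * s)
  fR : ∀ s, 0 ≤ s → w z * s ≤ 1 → ∀ j, c.R j =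
    MvPolynomial.eval (Sum.elim (fun i => c.q i - c.q0 s i) (c.γ s)) (c.F s j) + c.γ s j
  /-- weighted degree `< w j` (so only coordinates of lower weight occur) -/
  deg : ∀ s j n, (c.F s j).coeff n ≠ 0 → wgt (Sum.elim (fun _ => 1) w) n < w j
  litq : ∀ s i, Lit (c.VK s) (c.q0 s i)
  litF : ∀ s j n, Lit (c.VK s) ((c.F s j).coeff n)
  /-- the functions `G s` contain the centre and the coefficients of the frame -/
  gq : ∀ s i, c.q0 s i ≠ 0 → ∃ a, c.q0 s i = c.G s a
  gF : ∀ s j n, (c.F s j).coeff n ≠ 0 → ∃ a, (c.F s j).coeff n = c.G s a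
  /-- the frame of the unit box is trivial -/
  q00 : ∀ i, c.q0 0 i = 0
  F0 : ∀ j, c.F 0 j = 0

/-- two points with the same functions `G s` have the same frame -/
theorem Bx.fr {c : CD S d N r} {w : Fin N → ℝ} {z : Fin N} (h : c.Bx w z) (s : ℝ) (W : Sp) (π π' : Pj W S)
    (hG : ∀ a, π.qs (c.G s a) = π'.qs (c.G s a)) : (∀ i, π.qs (c.q0 s i) = π'.qs (c.q0 s i)) ∧
      ∀ j, MvPolynomial.map π.qs (c.F s j) = MvPolynomial.map π'.qs (c.F s j) := by
  constructor
  · intro i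
    by_cases h0 : c.q0 s i = 0
    · rw [h0, map_zero, map_zero]
    · obtain ⟨a, ha⟩ := h.gq s i h0
      rw [ha]
      exact hG a
  · intro j
    ext n
    rw [MvPolynomial.coeff_map, MvPolynomial.coeff_map]
    by_cases h0 : (c.F s j).coeff n = 0
    · rw [h0, map_zero, map_zero]
    · obtain ⟨a, ha⟩ := h.gF s j n h0
      rw [ha]
      exact hG a

/-- homogeneity, (PR) for the lower point, visibility of the box: (I3), (D) -/
structure Num (w : Fin N → ℝ) (z : Fin N) (ρ : ℝ) : Prop where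
  hbe : ∀ s, 0 ≤ s → w z * s ≤ 1 → H (c.K s) = ((d : ℝ) + 1 + (∑ j ∈ univ.erase z, w j) + (1 - ρ) * w z) * s
  pr0 : ∀ s, 0 ≤ s → w z * s ≤ 1 → I (c.K s) c.P ⊥ = ((d : ℝ) + 1) * s
  pr1 : ∀ k, 0 ≤ k → k ≤ 1 → h (vd (c.M z) k) c.P = ((N : ℝ) - 1) * k
  pr2 : ∀ s k, 0 ≤ s → w z * s ≤ k → k ≤ 1 →
    h (vd (c.M z) k) (c.K s ⊔ c.P) = ((N : ℝ) - 1) * k - (∑ j ∈ univ.erase z, w j) * s
  vis : ∀ s, 0 ≤ s → w z * s ≤ 1 → c.K s ≤ dg (c.R z) (w z * s) ⊔ (vd (c.M z) 1 ⊔ c.P)

/-- labels, all windows: (I4), the form for kernels (helper10's NLK), the form for labels of the whole state (walks) -/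
structure Lb (w : Fin N → ℝ) (z : Fin N) : Prop where
  lab : ∀ s, 0 ≤ s → w z * s < 1 → ∀ X : S.L, X ≤ c.O → (∀ i, X ≤ c.xi i ⊔ dg (c.q 0) s) → X ≤ c.K s
  nlk : ∀ s, 0 ≤ s → w z * s < 1 → ∀ (W : Sp) (p : Pj W S) (E : ∀ k, (W.F k).Ω → Prop) (hE : 0 < ul (W.pr E))
    (V : (W.rest E).L), (∀ y : S.L, I V (restL E hE (p.map y)) (restL E hE (p.map c.O)) = 0) →
    (∀ (i : Fin r) (y : S.L), I V (restL E hE (p.map y)) (restL E hE (p.map (c.xi i ⊔ dg (c.q 0) s))) = 0) →
    ∀ y : S.L, I V (restL E hE (p.map y)) (restL E hE (p.map (c.K s))) = 0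
  nlw : ∀ s, 0 ≤ s → w z * s < 1 → ∀ l : Lab S, UB (fun k => H ((l k).v) / (S.F k).n) →
    Nul S (fun k => (l k).leak (rp c.O k)) → (∀ i, Nul S (fun k => (l k).leak (rp (c.xi i ⊔ dg (c.q 0) s) k))) →
      Nul S (fun k => (l k).leak (rp (c.K s) k))

/-- AXIOMS OF A CORNER -/
structure Ax (w : Fin N → ℝ) (z : Fin N) (ρ : ℝ) : Prop where
  w1 : ∀ j, 1 < w j
  wz : ∀ j, w j ≤ w z
  rho0 : 0 < ρ
  rho1 : ρ ≤ 1
  ln : c.Ln
  bx : c.Bx w z
  num : c.Num w z ρ
  lb : c.Lb w z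

/-! ### zooms -/

/-- `c'` is the ZOOM of `c` into the box of scale `s`, with depth `e` (`w z * s + e ≤ 1`); `s = 0`: truncation. The base
of the new space is the literal box; unit box: `q = q0 s + 2^(-s) q'`, `γ s j = 2^(-w_j s) R'_j` -/
structure ZR (w : Fin N → ℝ) (z : Fin N) (s e : ℝ) (he : 0 < e) (h1 : e ≤ 1) (Z : ∀ k, Setoid (S.F k).Ω)
    (c' : CD (S.chg Z e he) d N r) : Prop where
  base : ∀ k, Z k = Setoid.ker (c.VK s k)
  q : ∀ i, ∃ X : QS S, c.q i - c.q0 s i = sc S s * X ∧ c'.q i = cQ Z e he h1 X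
  R : ∀ j, ∃ Y : QS S, c.γ s j = sc S (w j * s) * Y ∧ c'.R j = cQ Z e he h1 Y
  u : ∀ i j, c'.u i j = cQ Z e he h1 (c.u i j)
  /-- base lines and curves of `c'` are functions of those of `c` -/
  b : ∀ i, c'.b i ≤ chgL Z e he (c.b i)
  xi : ∀ i, c'.xi i ≤ chgL Z e he (c.xi i)
  VK : ∀ s', 0 ≤ s' → w z * (s + e * s') ≤ 1 → ∀ k ω ω', ((S.chg Z e he).F k).μ ω ≠ 0 →
    ((S.chg Z e he).F k).μ ω' ≠ 0 → ((S.chg Z e he).F k).Z ω ω' →
      (c'.VK s' k ω = c'.VK s' k ω' ↔ c.VK (s + e * s') k ω = c.VK (s + e * s') k ω')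

/-! ### views -/

/-- vertical system of helper95 (scales normalised to `[0,1]`) -/
def toVS (w : Fin N → ℝ) (z : Fin N) : Helper95.RIG.VS S N where
  P := c.P
  R := c.R
  be := fun s => c.K (s / w z)

/-- corner of helper95 -/
def toCor (w : Fin N → ℝ) (z : Fin N) : Helper95.RIG.Cor S d N where
  toVS := c.toVS w z
  q := c.q
  O := c.O
  r := r
  nf := fun _ => N * (c.g + 1)
  f := fun i x => c.cv i (finProdFinEquiv.symm x)
  al := c.al
  bV := c.bV

/-- THEOREM R for the corner (type `i`, smallest box) -/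
def TR (w : Fin N → ℝ) (z : Fin N) (i : Fin r) : Prop := (c.toCor w z).ThmR i

end CD

/-! ### classes of corners -/

/-- CLASS OF CORNERS, closed under extensions, events, zooms and truncations -/
structure Cls (d N r : ℕ) (w : Fin N → ℝ) (z : Fin N) (ρ : ℝ) (C : ∀ S : Sp, CD S d N r → Prop) : Prop where
  ax : ∀ S c, C S c → c.Ax w z ρ
  pull : ∀ S c, C S c → ∀ (T : Sp) (p : Pj T S), C T (c.pull p)
  rest : ∀ S c, C S c → ∀ (E : ∀ k, (S.F k).Ω → Prop) (hE : 0 < ul (S.pr E)), C (S.rest E) (c.rest E hE)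
  zoom : ∀ S c, C S c → ∀ (s e : ℝ) (he : 0 < e) (h1 : e ≤ 1), 0 ≤ s → w z * s + e ≤ 1 →
    ∀ Z : ∀ k, Setoid (S.F k).Ω, (∀ k, Z k = Setoid.ker (c.VK s k)) →
      ∃ c' : CD (S.chg Z e he) d N r, c.ZR w z s e he h1 Z c' ∧ C _ c'

section

variable {d N r : ℕ} (w : Fin N → ℝ) (z : Fin N) (C : ∀ S : Sp, CD S d N r → Prop)

/-- real triangular changes of the vertical coordinates: rate 0 coefficients, only coordinates of lower weight -/
structure Tri {S : Sp} (w : Fin N → ℝ) (H : Fin N → MvPolynomial (Fin (d + 1) ⊕ Fin N) (QS S)) : Prop where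
  real : ∀ j, H j ∈ PK ⊥
  low : ∀ j n, (H j).coeff n ≠ 0 → ∀ l, n (Sum.inr l) ≠ 0 → w l < w j

/-- changed coordinates -/
def CD.cR {S : Sp} (c : CD S d N r) (H : Fin N → MvPolynomial (Fin (d + 1) ⊕ Fin N) (QS S)) : Fin N → QS S :=
  fun j => c.R j - MvPolynomial.eval c.pt (H j)

/-- (AD), LEMMA Q: no exact vertical structure has an (almost) unit direction; on all events -/
def AD : Prop := ∀ S c, C S c → ∀ V : S.L, c.P ≤ V → Helper95.RIG.PLeaf V c.R → ∃ th : ℝ, 0 < th ∧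
  ∀ (E : ∀ k, (S.F k).Ω → Prop) (hE : 0 < ul (S.pr E)) (j : Fin N),
    h (restL E hE (dg (c.R j) 1)) (restL E hE V) ≤ 1 - th

/-- (Y) up to `ε` (class relative STRONG for the fibre systems), transport form of helper56: a structure `K` on an
extension, carried by the curve, known to the base line and the box of the smallest scale up to `ε`, is a structure of
the fibre point at every point of the same curve -/
def YY : Prop := ∀ S c, C S c → ∀ i, ∀ ε : ℝ, 0 < ε → (c.toCor w z).FibT (c.P ⊔ c.K (1 / w z)) i ε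

/-- the quotients by directions which are independent of the whole state (at the finite level) are full, to the level
`r`; on all events of extensions (helper96, helper24) -/
def STQE {S : Sp} {ι ν : Type} [Fintype ι] [Fintype ν] (q : ι → QS S) (y : ν → QS S) (r : ℝ) : Prop :=
  ∀ (T : Sp) (p : Pj T S) (E : ∀ k, (T.F k).Ω → Prop) (hE : 0 < ul (T.pr E)) (al : ℕ → Type)
    (U : ∀ k, (T.F k).Ω → al k), Helper40.EL.Nul (T.rest E) (fun k => I
      (Helper40.EL.fc (F := (T.rest E).F k) (Setoid.ker (U k))) (Helper40.EL.fc (Setoid.ker (p.π k))) ⊥) →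
    ∀ (v : ν → QS (T.rest E)) (a : ν), IsUnit (v a) → vd v 1 ≤ io (S := T.rest E) U → ∀ k : ℝ, 0 ≤ k → k ≤ r →
      h (vd (Helper96.FWC.wg (fun i => QS.rest E hE (p.qs (y i))) v a) k) (restL E hE (p.map (vd q 1)) ⊔ vd v 1) =
        ((Fintype.card ν : ℝ) - 1) * k

/-- (PR): the quotients by frozen vectors are full, in all real triangular coordinates -/
def PR : Prop := ∀ S c, C S c → ∀ H : Fin N → MvPolynomial (Fin (d + 1) ⊕ Fin N) (QS S), Tri w H →
  STQE c.q (c.cR H) 1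

/-- (H): no real relation (helper5's `NR`, all degrees, all levels) -/
def NR : Prop := ∀ S c, C S c → ∀ (D : ℕ) (κ : ℝ), 0 < κ → κ ≤ 1 → Helper5.DO.NR D c.pt ⊥ κ

/-- THEOREM R for all corners of the class -/
def TRs : Prop := ∀ S c, C S c → ∀ i, c.TR w z i

/-- the coordinates `c.cR H` are FLAT up to level `κ` over the informations `B i`, `X i`: along the curve of type `i`
they are polynomials in the height, the coefficients of positive degree are known to `B i`, the intercept to `X i` -/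
def FlatH {S : Sp} (c : CD S d N r) (κ : ℝ) (H : Fin N → MvPolynomial (Fin (d + 1) ⊕ Fin N) (QS S))
    (B X : Fin r → S.L) : Prop := ∀ i j, ∃ (k : ℕ) (e : Fin (k + 1) → QS S), (∀ l : Fin k, dg (e l.succ) 1 ≤ B i) ∧
      dg (e 0) 1 ≤ X i ∧ c.cR H j - pe e (c.q 0) ∈ Id S κ

/-- the corner is FLAT up to level `κ` -/
def Flat {S : Sp} (c : CD S d N r) (κ : ℝ) : Prop :=
  ∃ H : Fin N → MvPolynomial (Fin (d + 1) ⊕ Fin N) (QS S), Tri w H ∧ FlatH c κ H c.b c.xi

end

end

end Pool.Agent.Helper13.AM
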