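import Pool.Agent.Helper13.AM.Tca
import Pool.Agent.Helper34.SLC.Main
import Pool.Agent.Helper95.RIG.Zpl
import Pool.Agent.Helper95.RIG.Rig

/-! ALL DIMENSIONS, exact calculus: THEOREM BLOCK from the two open statements [THA], [UQC]. -/

set_option autoImplicit false

namespace Pool.Agent.Helper13.AM

open Pool.Agent.Helper31.EC

/-- THEOREM R for every class of corners with (AD) and (Y) -/
theorem trs {d N r : ℕ} {w : Fin N → ℝ} {z : Fin N} {ρ : ℝ} {C : ∀ S : Sp, CD S d N r → Prop}
    (hC : Cls d N r w z ρ C) (hq : AD C) (hy : YY w z C) : TRs w z C :=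
  trs_of Pool.Agent.Helper34.SLC.st_slice Pool.Agent.Helper95.RIG.rigA st_tca Pool.Agent.Helper95.RIG.st_zpl hC hq hy

/-- THEOREM BLOCK -/
theorem block_of (hT : ST_THA) (hU : ST_UQC) : BLOCK :=
  block Pool.Agent.Helper34.SLC.st_slice Pool.Agent.Helper95.RIG.rigA st_tca Pool.Agent.Helper95.RIG.st_zpl hT hU

end Pool.Agent.Helper13.AM
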