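import Pool.Agent.Helper13.AM.Fin
import Pool.Agent.Helper45.UC.Uqc
import Pool.Agent.Helper79.HLD.Zm

/-! ALL DIMENSIONS, exact calculus: THEOREM BLOCK from [THA] and THEOREM W for vectors. -/

set_option autoImplicit false

namespace Pool.Agent.Helper13.AM

/-- THEOREM BLOCK from [THA] and THEOREM W for vectors -/
theorem block_fin (hT : ST_THA) (hW : ST_WVQ) : BLOCK := block_of hT (Pool.Agent.Helper45.UC.uqc_of hW)

end Pool.Agent.Helper13.AM
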