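import Pool.Agent.Helper13.AM.Fin2
import Pool.Agent.Helper61.FW.Top2

/-! ALL DIMENSIONS, exact calculus: THEOREM BLOCK from [THA]. -/

set_option autoImplicit false

namespace Pool.Agent.Helper13.AM

/-- THEOREM BLOCK from [THA] -/
theorem block_tha (hT : ST_THA) : BLOCK := block_fin hT Pool.Agent.Helper61.FW.st_wvq

end Pool.Agent.Helper13.AM
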