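import Pool.Agent.Helper13.AM.Der
import Pool.Agent.Helper13.AM.Blk
import Pool.Agent.Helper34.SLC.Rev

/-! ALL DIMENSIONS, exact calculus: the box of the smallest scale is a vertical leaf; the view of a corner as a corner of
helper95 satisfies his axioms (`st_tca`). -/

set_option autoImplicit false

namespace Pool.Agent.Helper13.AM

open Finset Filter Topology Pool.Agent.Helper69.RK Pool.Agent.Helper31.EC Pool.Agent.Helper31.EC.Sp
open Pool.Agent.Helper31.EC.QS
open Pool.Agent.Helper57.TA (sc wgt)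
open Pool.Agent.Helper33.CM (h_add_I h_split)
open Pool.Agent.Helper95.RIG (PLeaf ALeaf)

noncomputable section

theorem h_le_of {L : Type*} [PM L] {A B C : L} (h1 : A ≤ B ⊔ C) : h A C ≤ h B C := by
  have h2 : h A C ≤ h (B ⊔ C) C := h_mono h1
  have h3 : h (B ⊔ C) C = h B C := by
    unfold h
    rw [sup_assoc, sup_idem]
  rwa [h3] at h2

section mixed

variable {S : Sp} {ι : Type} [Fintype ι]

/-- digits of a family, different levels -/
def mx (v : ι → QS S) (l : ι → ℝ) : S.L := univ.sup fun j => dg (v j) (l j)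

theorem mx_le (v : ι → QS S) (l : ι → ℝ) (A : S.L) : mx v l ≤ A ↔ ∀ j, dg (v j) (l j) ≤ A := by
  unfold mx
  rw [Finset.sup_le_iff]
  exact ⟨fun h j => h j (mem_univ j), fun h j _ => h j⟩

theorem dg_le_mx (v : ι → QS S) (l : ι → ℝ) (j : ι) : dg (v j) (l j) ≤ mx v l :=
  Finset.le_sup (f := fun j => dg (v j) (l j)) (mem_univ j)

theorem mx_pull {T : Sp} (p : Pj T S) (v : ι → QS S) (l : ι → ℝ) :
    p.map (mx v l) = mx (fun j => p.qs (v j)) l := by
  apply le_antisymm
  · have h1 : p.map (mx v l) = univ.sup fun j => p.map (dg (v j) (l j)) := by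
      unfold mx
      induction (univ : Finset ι) using Finset.cons_induction with
      | empty =>
        rw [Finset.sup_empty, Finset.sup_empty]
        exact p.map_bot
      | cons a s ha ih =>
        rw [Finset.sup_cons, Finset.sup_cons, p.map_sup, ih]
    rw [h1]
    refine Finset.sup_le fun j _ => ?_
    rw [← p.qs_dg]
    exact dg_le_mx (fun j => p.qs (v j)) l j
  · rw [mx_le]
    intro j
    rw [p.qs_dg]
    exact p.map_mono (dg_le_mx v l j)

/-- real families are real at mixed levels -/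
theorem h_mx (v : ι → QS S) {A : S.L} (hv : Rl v A) {l : ι → ℝ} (h1 : ∀ j, l j ≤ 1) :
    ∑ j, l j ≤ h (mx v l) A := by
  have h2 : h (vd v 1) A ≤ h (mx v l ⊔ vd v 1) A := h_mono le_sup_right
  rw [h_chain] at h2
  have h3 : h (vd v 1) (mx v l ⊔ A) ≤ ∑ j, (1 - l j) := by
    unfold vd
    refine (h_finsup_le univ _ _).trans (Finset.sum_le_sum fun j _ => ?_)
    refine le_trans (h_anti ?_) (h_dg_dg (v j) (h1 j))
    exact (dg_le_mx v l j).trans le_sup_left
  rw [Finset.sum_sub_distrib] at h3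
  have h4 : h (vd v 1) A = Fintype.card ι := hv
  rw [Finset.sum_const, Finset.card_univ, nsmul_eq_mul, mul_one] at h3
  linarith

end mixed

namespace CD

variable {S : Sp} {d N r : ℕ} {c : CD S d N r} {w : Fin N → ℝ} {z : Fin N} {ρ : ℝ}

/-- over the box and the base point the box coordinates and the vertical coordinates are the same -/
theorem Ax.vdR_le (hc : c.Ax w z ρ) {s : ℝ} (h0 : 0 ≤ s) (h1 : w z * s ≤ 1) :
    vd c.R 1 ≤ vd (c.γ s) 1 ⊔ (c.K s ⊔ c.P) := by
  rw [vd_le]
  intro j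
  rw [hc.bx.fR s h0 h1 j]
  have hg : ∀ l, dg (c.γ s l) 1 ≤ vd (c.γ s) 1 ⊔ (c.K s ⊔ c.P) := fun l => (dg_le_vd (c.γ s) 1 l).trans le_sup_left
  refine (Kn S 1 le_rfl (vd (c.γ s) 1 ⊔ (c.K s ⊔ c.P))).add_mem (eval_mem_sub _ _ _ (fun n => ?_)
    fun n _ x _ => ?_) (hg j)
  · exact ((hc.bx.litF s j n).dg_le (hc.bx.bdd s) le_rfl).trans (le_sup_left.trans le_sup_right)
  · rcases x with i | l
    · show dg (c.q i - c.q0 s i) 1 ≤ _
      refine (dg_sub_le _ _ le_rfl).trans (sup_le ?_ ?_)
      · exact (dg_le_vd c.q 1 i).trans (le_sup_right.trans le_sup_right)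
      · exact ((hc.bx.litq s i).dg_le (hc.bx.bdd s) le_rfl).trans (le_sup_left.trans le_sup_right)
    · exact hg l

/-- THE SMALLEST BOX IS A VERTICAL LEAF -/
theorem Ax.boxleaf (hc : c.Ax w z ρ) {s : ℝ} (h0 : 0 ≤ s) (h1 : w z * s = 1) : ALeaf (c.P ⊔ c.K s) c.R := by
  have hw := hc.w0
  have hs : w z * s ≤ 1 := h1.le
  set l : Fin N → ℝ := fun j => w j * s with hl
  have l0 : ∀ j, 0 ≤ l j := fun j => mul_nonneg (hw j).le h0
  have l1 : ∀ j, l j ≤ 1 := fun j => (mul_le_mul_of_nonneg_right (hc.wz j) h0).trans hs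
  choose Y hY1 hY2 using fun j => Helper57.TA.exists_div' (l0 j) (l1 j) (hc.bx.fγ s h0 hs j)
  obtain ⟨W, p, v, hv⟩ := Helper34.SLC.exists_fresh S (Fin N)
  choose Z hZ1 hZ2 using fun j => Helper57.TA.exists_round (p.qs (Y j)) (sub_nonneg.mpr (l1 j))
    (by linarith [l0 j] : 1 - l j ≤ 1)
  set A : S.L := c.P ⊔ c.K s with hA
  set Y' : Fin N → QS W := fun j => Z j + sc W (1 - l j) * v j with hY'
  -- digits of `Y`
  set D : S.L := mx Y (fun j => 1 - l j) with hD
  have hDg : vd (c.γ s) 1 = D := by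
    unfold vd
    rw [hD]
    unfold mx
    congr 1
    funext j
    rw [hY1 j, dg_scl (Y j) (l0 j) le_rfl]
  have hDA : (N : ℝ) - ∑ j, l j ≤ h D A := by
    have e1 := hc.h_R_K h0 hs le_rfl
    have e2 : h (vd c.R 1) (c.K s ⊔ c.P) ≤ h D A := by
      rw [hA, sup_comm c.P, ← hDg]
      apply h_le_of
      exact hc.vdR_le h0 hs
    rw [e1, h1, sub_self, mul_zero, sub_zero, mul_one, Finset.sum_mul] at e2
    exact e2
  -- digits of `Z` are known to `p.map D`
  have hZD : ∀ j, dg (Z j) 1 ≤ p.map D := by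
    intro j
    refine (hZ1 j).trans ?_
    rw [p.qs_dg]
    exact p.map_mono (dg_le_mx Y (fun j => 1 - l j) j)
  have hYD : p.map D ≤ vd Y' 1 := by
    rw [hD, mx_pull, mx_le]
    intro j
    have e1 : p.qs (Y j) - Y' j ∈ Id W (1 - l j) := by
      have e2 : p.qs (Y j) - Y' j = (p.qs (Y j) - Z j) - sc W (1 - l j) * v j := by
        rw [hY']
        ring
      rw [e2]
      exact (Id W (1 - l j)).sub_mem (hZ2 j) ((Id W (1 - l j)).mul_mem_right _ (Helper57.TA.sc_mem (sub_nonneg.mpr (l1 j))))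
    rw [dg_eq_of_sub_mem e1 le_rfl (by linarith [l0 j])]
    exact (dg_mono _ (by linarith [l0 j])).trans (dg_le_vd Y' 1 j)
  have hRl : Rl Y' (p.map A) := by
    apply Rl.of_ge
    rw [Fintype.card_fin]
    have e1 : h (vd Y' 1) (p.map A) = h (p.map D) (p.map A) + h (vd Y' 1) (p.map D ⊔ p.map A) :=
      h_split (hYD.trans le_sup_left)
    have e2 : h (p.map D) (p.map A) = h D A := p.h_map D A
    have e3 : h (mx v l) (p.map (D ⊔ A)) ≤ h (vd Y' 1) (p.map D ⊔ p.map A) := by
      rw [← p.map_sup]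
      apply h_le_of
      rw [mx_le]
      intro j
      have e4 : dg (sc W (1 - l j) * v j) 1 = dg (v j) (l j) := by
        rw [dg_scl (v j) (sub_nonneg.mpr (l1 j)) le_rfl]
        congr 1
        ring
      rw [← e4]
      have e5 : sc W (1 - l j) * v j = Y' j - Z j := by
        rw [hY']
        ring
      rw [e5]
      refine (dg_sub_le _ _ le_rfl).trans (sup_le ?_ ?_)
      · exact (dg_le_vd Y' 1 j).trans le_sup_left
      · exact (hZD j).trans ((p.map_mono le_sup_left).trans le_sup_right)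
    have e4 := h_mx v (hv (D ⊔ A)) l1
    linarith
  -- the frame
  have hg : ∀ j, p.qs (c.γ s j) = sc W (l j) * Y' j := by
    intro j
    rw [hY1 j, map_mul, Helper57.TA.Pj_qs_sc, ← sub_eq_zero, ← mul_sub, ← QS.mem_Id_one]
    have e1 : p.qs (Y j) - Y' j ∈ Id W (1 - l j) := by
      have e2 : p.qs (Y j) - Y' j = (p.qs (Y j) - Z j) - sc W (1 - l j) * v j := by
        rw [hY']
        ring
      rw [e2]
      exact (Id W (1 - l j)).sub_mem (hZ2 j) ((Id W (1 - l j)).mul_mem_right _ (Helper57.TA.sc_mem (sub_nonneg.mpr (l1 j))))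
    rw [Helper57.TA.sc_mul_mem_iff (l0 j) le_rfl]
    exact e1
  have hlf : PLeaf (p.map A) (fun j => p.qs (c.R j)) := by
    have e1 : PLeaf (p.map A) (Sum.elim (fun i => p.qs (c.q i - c.q0 s i)) fun j => p.qs (c.γ s j)) := by
      refine ⟨N, Y', Sum.elim (fun i => MvPolynomial.C (p.qs (c.q i - c.q0 s i))) fun j =>
        MvPolynomial.C (sc W (l j)) * MvPolynomial.X j, hRl, ?_, ?_⟩
      · intro x
        rcases x with i | j
        · refine C_mem ?_
          rw [p.qs_dg]
          refine p.map_mono ((dg_sub_le _ _ le_rfl).trans (sup_le ?_ ?_))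
          · exact (dg_le_vd c.q 1 i).trans le_sup_left
          · exact ((hc.bx.litq s i).dg_le (hc.bx.bdd s) le_rfl).trans le_sup_right
        · exact (PK _).mul_mem (C_mem ((Helper57.TA.dg_sc _ _).le.trans bot_le)) (X_mem _ _)
      · intro x
        rcases x with i | j
        · show p.qs (c.q i - c.q0 s i) = MvPolynomial.eval Y' (MvPolynomial.C (p.qs (c.q i - c.q0 s i)))
          rw [MvPolynomial.eval_C]
        · show p.qs (c.γ s j) = MvPolynomial.eval Y' (MvPolynomial.C (sc W (l j)) * MvPolynomial.X j)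
          rw [map_mul, MvPolynomial.eval_C, MvPolynomial.eval_X, hg j]
    refine e1.sum fun j => ⟨MvPolynomial.map p.qs (c.F s j) + MvPolynomial.X (Sum.inr j), ?_, ?_⟩
    · refine (PK _).add_mem (map_PK p fun n => ?_) (X_mem _ _)
      exact ((hc.bx.litF s j n).dg_le (hc.bx.bdd s) le_rfl).trans le_sup_right
    · rw [map_add, MvPolynomial.eval_X]
      show p.qs (c.R j) = MvPolynomial.eval _ (MvPolynomial.map p.qs (c.F s j)) + p.qs (c.γ s j)
      rw [hc.bx.fR s h0 hs j, map_add, qs_eval]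
      have e2 : (fun x => p.qs (Sum.elim (fun i => c.q i - c.q0 s i) (c.γ s) x)) =
          Sum.elim (fun i => p.qs (c.q i - c.q0 s i)) fun j => p.qs (c.γ s j) := by
        funext x
        rcases x with i | l <;> rfl
      rw [e2]
  intro ε hε
  refine ⟨W, p, p.map A, le_rfl, fun y => ?_, hlf⟩
  rw [I_zero_of_le_left le_rfl]
  exact hε.le

/-- THE VIEW AS A CORNER OF helper95 -/
theorem Ax.toCor (hc : c.Ax w z ρ) : (c.toCor w z).Ax z ρ where
  zero := by
    show c.K (0 / w z) ≤ c.P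
    rw [zero_div, hc.bx.K_zero]
    exact bot_le
  mono := by
    intro s s' h0 h1 h2
    have hw := hc.w0 z
    show c.K (s / w z) ≤ c.K (s' / w z) ⊔ c.P
    refine (hc.bx.mono _ _ (by positivity) (div_le_div_of_nonneg_right h1 hw.le) ?_).trans le_sup_left
    rwa [mul_div_cancel₀ _ hw.ne']
  cont := by
    have hw := hc.w0 z
    refine ⟨((∑ j ∈ univ.erase z, w j) + (1 - ρ) * w z) / w z, fun s s' h0 h1 h2 => ?_⟩
    show h (c.K (s' / w z)) (c.K (s / w z) ⊔ c.P) ≤ _
    rw [hc.h_KK (by positivity) (div_le_div_of_nonneg_right h1 hw.le) (by rwa [mul_div_cancel₀ _ hw.ne'])]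
    apply le_of_eq
    ring
  dig := by
    intro s h0 h1
    have hw := hc.w0 z
    show c.K (s / w z) ≤ c.P ⊔ vd c.R s
    rw [sup_comm]
    exact hc.K_le (by positivity) (by rw [mul_div_cancel₀ _ hw.ne']) h1
  bdd := hc.ln.bdd
  hq := le_rfl
  hP := P_le_O
  hR := R_le_O
  line := fun i => ⟨c.a i, c.u i, hc.ln.a_le i, hc.ln.u_le i, hc.ln.line i⟩
  curve := by
    intro i
    have e1 : (c.toCor w z).xi i = c.xi i := by
      show c.b i ⊔ vd (fun x => c.cv i (finProdFinEquiv.symm x)) 1 = c.b i ⊔ vd (c.cv i) 1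
      have e2 : vd (fun x => c.cv i (finProdFinEquiv.symm x)) 1 = vd (c.cv i) 1 := vd_equiv finProdFinEquiv.symm (c.cv i) 1
      rw [e2]
    refine ⟨?_, fun j => ⟨c.g, fun l => finProdFinEquiv (j, l), ?_⟩⟩
    · rw [e1]
      exact hc.ln.time i
    · show c.R j = pe (fun l => c.cv i (finProdFinEquiv.symm (finProdFinEquiv (j, l)))) (c.q 0)
      have e2 : (fun l => c.cv i (finProdFinEquiv.symm (finProdFinEquiv (j, l)))) = c.cf i j := by
        funext l
        rw [Equiv.symm_apply_apply]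
        rfl
      rw [e2]
      exact hc.ln.curve i j
  ind := hc.ln.ind
  far1 := fun i => I_zero_of_le_left (hc.ln.P_le i)
  far2 := I_zero_of_le_left le_rfl
  boxleaf := by
    have hw := hc.w0 z
    exact hc.boxleaf (s := 1 / w z) (by positivity) (mul_div_cancel₀ _ hw.ne')
  rho0 := hc.rho0
  rho1 := hc.rho1
  dA := by
    intro k h0 h1
    have e1 : ((univ.erase z).sup fun j => dg (c.R j) 1) = vd (c.M z) 1 := by
      apply le_antisymm
      · refine Finset.sup_le fun j hj => ?_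
        exact dg_le_vd (c.M z) 1 ⟨j, Finset.ne_of_mem_erase hj⟩
      · rw [vd_le]
        exact fun j => Finset.le_sup (f := fun j => dg (c.R j) 1) (Finset.mem_erase.mpr ⟨j.2, mem_univ _⟩)
    show h (dg (c.R z) k) (c.P ⊔ (univ.erase z).sup fun j => dg (c.R j) 1) = _
    rw [e1, sup_comm]
    exact hc.h_z h0 h1
  dB := by
    intro k h0 h1
    have e1 : ((univ.erase z).sup fun j => dg (c.R j) k) = vd (c.M z) k := by
      apply le_antisymm
      · refine Finset.sup_le fun j hj => ?_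
        exact dg_le_vd (c.M z) k ⟨j, Finset.ne_of_mem_erase hj⟩
      · rw [vd_le]
        exact fun j => Finset.le_sup (f := fun j => dg (c.R j) k) (Finset.mem_erase.mpr ⟨j.2, mem_univ _⟩)
    show h (dg (c.R z) k) (c.P ⊔ (univ.erase z).sup fun j => dg (c.R j) k) = _
    rw [e1, sup_comm]
    exact hc.h_z_M h0 h1

end CD

theorem st_tca : ST_TCA := fun _ _ _ _ _ _ _ _ hc => hc.toCor

end

end Pool.Agent.Helper13.AM
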