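import Pool.Agent.Helper38.NS.Dep

/-! Exact entropy calculus: change of the base and of the depth as a functor on functions: `cQ : QS S →+* QS (S.chg Z e)`
(38's `dQ` for an arbitrary base partition). -/

set_option autoImplicit false

namespace Pool.Agent.Helper13.AM

open Finset Filter Topology Pool.Agent.Helper69.RK Pool.Agent.Helper31.EC Pool.Agent.Helper31.EC.Sp
open Pool.Agent.Helper31.EC.QS

noncomputable section

variable {S : Sp} (Z : ∀ k, Setoid (S.F k).Ω) (e : ℝ) (he : 0 < e)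

theorem chg_sub' {K : ℕ → ℝ} (hK : (S.chg Z e he).Sub K) : S.Sub K := by
  refine ⟨hK.1, ?_⟩
  have h1 := hK.2.const_mul e
  rw [mul_zero] at h1
  refine h1.congr fun k => ?_
  show e * (Real.logb 2 (K k + 2) / (e * (S.F k).n)) = Real.logb 2 (K k + 2) / (S.F k).n
  have := (S.F k).pos
  field_simp

/-- tame functions -/
def cT : TR S →+* TR (S.chg Z e he) where
  toFun f := ⟨f.1, by
    obtain ⟨K, hK, h⟩ := f.2
    exact ⟨K, chg_sub Z e he hK, h⟩⟩
  map_one' := rfl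
  map_mul' _ _ := rfl
  map_zero' := rfl
  map_add' _ _ := rfl

theorem cT_surj (f : TR (S.chg Z e he)) : ∃ g : TR S, cT Z e he g = f := by
  obtain ⟨K, hK, h⟩ := f.2
  exact ⟨⟨f.1, K, chg_sub' Z e he hK, h⟩, rfl⟩

theorem cT_ag {f g : TR S} {r : ℝ} : TR.Ag r (cT Z e he f) (cT Z e he g) ↔ TR.Ag (e * r) f g := by
  constructor
  · rintro ⟨E, K, hE, hK, hh⟩
    refine ⟨E, K, hE, chg_sub' Z e he hK, ?_⟩
    filter_upwards [hh] with k hk ω a b
    have h1 := hk ω a b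
    rw [chg_dl] at h1
    exact h1
  · rintro ⟨E, K, hE, hK, hh⟩
    refine ⟨E, K, hE, chg_sub Z e he hK, ?_⟩
    filter_upwards [hh] with k hk ω a b
    rw [chg_dl]
    exact hk ω a b

theorem cT_dg (f : TR S) (r : ℝ) : TR.dg (cT Z e he f) r = chgL Z e he (TR.dg f (e * r)) := by
  unfold TR.dg
  have h1 : TR.vec (fun _ : Fin 1 => cT Z e he f) = (TR.vec (fun _ : Fin 1 => f)).chg Z e he := rfl
  have h2 := (TR.vec (fun _ : Fin 1 => f)).chg_dg Z e he r
  exact (congrArg (fun y : (S.chg Z e he).VV 1 => y.dg r) h1).trans h2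

theorem chgL_finsup {ι : Type*} (s : Finset ι) (f : ι → S.L) :
    chgL Z e he (s.sup f) = s.sup fun i => chgL Z e he (f i) := by
  classical
  induction s using Finset.induction_on with
  | empty => rfl
  | insert a s ha ih => rw [Finset.sup_insert, Finset.sup_insert, chgL_sup, ih]

theorem mul_le_one_of {e r : ℝ} (he : 0 < e) (h1 : e ≤ 1) (hr : r ≤ 1) : e * r ≤ 1 := by
  rcases le_total r 0 with h | h
  · exact (mul_nonpos_of_nonneg_of_nonpos he.le h).trans zero_le_one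
  · calc e * r ≤ 1 * 1 := mul_le_mul h1 hr h zero_le_one
      _ = 1 := one_mul 1

variable (h1 : e ≤ 1)

/-- functions to full precision over the new base, at the new depth -/
def cQ : QS S →+* QS (S.chg Z e he) :=
  Ideal.Quotient.lift (TR.Idl S) (QS.mk.comp (cT Z e he)) (by
    intro f hf
    have h2 : TR.Ag 1 f 0 := hf
    have h3 : TR.Ag 1 (cT Z e he f) (cT Z e he 0) := by
      rw [cT_ag, mul_one]
      exact h2.anti h1
    rw [map_zero] at h3
    show QS.mk (cT Z e he f) = 0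
    rw [← map_zero QS.mk]
    exact QS.mk_eq.mpr h3)

theorem cQ_mk (f : TR S) : cQ Z e he h1 (QS.mk f) = QS.mk (cT Z e he f) := rfl

theorem cQ_dg (f : QS S) {r : ℝ} (hr : r ≤ 1) : dg (cQ Z e he h1 f) r = chgL Z e he (dg f (e * r)) := by
  obtain ⟨f, rfl⟩ := mk_surj f
  rw [cQ_mk, dg_mk _ hr, dg_mk _ (mul_le_one_of he h1 hr), cT_dg]

theorem cQ_vd {ι : Type} [Fintype ι] (f : ι → QS S) {r : ℝ} (hr : r ≤ 1) :
    vd (fun i => cQ Z e he h1 (f i)) r = chgL Z e he (vd f (e * r)) := by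
  unfold vd
  rw [chgL_finsup]
  congr 1
  funext i
  exact cQ_dg Z e he h1 (f i) hr

theorem cQ_mem {f : QS S} {r : ℝ} (hr : r ≤ 1) : cQ Z e he h1 f ∈ Id (S.chg Z e he) r ↔ f ∈ Id S (e * r) := by
  obtain ⟨f, rfl⟩ := mk_surj f
  rw [cQ_mk, mk_mem_Id hr, mk_mem_Id (mul_le_one_of he h1 hr), ← cT_ag Z e he, map_zero]

theorem cQ_eq_zero {f : QS S} : cQ Z e he h1 f = 0 ↔ f ∈ Id S e := by
  rw [← mem_Id_one, cQ_mem Z e he h1 le_rfl, mul_one]

theorem cQ_eq {f g : QS S} : cQ Z e he h1 f = cQ Z e he h1 g ↔ f - g ∈ Id S e := by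
  rw [← sub_eq_zero, ← map_sub, cQ_eq_zero]

theorem cQ_surj (f : QS (S.chg Z e he)) : ∃ g : QS S, cQ Z e he h1 g = f := by
  obtain ⟨f, rfl⟩ := mk_surj f
  obtain ⟨g, rfl⟩ := cT_surj Z e he f
  exact ⟨QS.mk g, rfl⟩

end

end Pool.Agent.Helper13.AM
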