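import Pool.Agent.Helper13.AM.Zt
import Pool.Agent.Helper13.AM.Axp

/-! ALL DIMENSIONS, exact calculus: the zoom of a corner keeps the weighted degrees of the curves. -/

set_option autoImplicit false
set_option linter.unusedSectionVars false

namespace Pool.Agent.Helper13.AM

open Finset Filter Topology Pool.Agent.Helper69.RK Pool.Agent.Helper31.EC Pool.Agent.Helper31.EC.Sp
open Pool.Agent.Helper31.EC.QS
open Pool.Agent.Helper82.TP (Lit)
open Pool.Agent.Helper57.TA (sc wgt top_zero exists_div')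
open Pool.Agent.Helper33.CM (h_add_I h_split)
open Pool.Agent.Helper50.BLD (lv lv_bdd lv_io lv_lit)

noncomputable section

/-! ### degrees over a subring -/

section deg

variable {Q : Type*} [CommRing Q] (K1 : Subring Q) (x : Q)

/-- `f` is a polynomial in `x` over `K1` of degree at most `m` -/
def PDg (m : ℝ) (f : Q) : Prop := ∃ p : Polynomial K1, Polynomial.aeval x p = f ∧ (p.natDegree : ℝ) ≤ m

variable {K1 x}

theorem PDg.mono {a b : ℝ} {f : Q} (h : PDg K1 x a f) (hab : a ≤ b) : PDg K1 x b f := by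
  obtain ⟨p, h1, h2⟩ := h
  exact ⟨p, h1, h2.trans hab⟩

theorem PDg.add {a : ℝ} {f g : Q} (hf : PDg K1 x a f) (hg : PDg K1 x a g) : PDg K1 x a (f + g) := by
  obtain ⟨p, h1, h2⟩ := hf
  obtain ⟨q, h3, h4⟩ := hg
  refine ⟨p + q, by rw [map_add, h1, h3], ?_⟩
  have h5 := Polynomial.natDegree_add_le p q
  rcases le_total p.natDegree q.natDegree with h6 | h6
  · rw [max_eq_right h6] at h5
    exact le_trans (by exact_mod_cast h5) h4
  · rw [max_eq_left h6] at h5
    exact le_trans (by exact_mod_cast h5) h2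

theorem PDg.neg {a : ℝ} {f : Q} (hf : PDg K1 x a f) : PDg K1 x a (-f) := by
  obtain ⟨p, h1, h2⟩ := hf
  exact ⟨-p, by rw [map_neg, h1], by rwa [Polynomial.natDegree_neg]⟩

theorem PDg.sub {a : ℝ} {f g : Q} (hf : PDg K1 x a f) (hg : PDg K1 x a g) : PDg K1 x a (f - g) := by
  rw [sub_eq_add_neg]
  exact hf.add hg.neg

theorem PDg.mul {a b : ℝ} {f g : Q} (hf : PDg K1 x a f) (hg : PDg K1 x b g) : PDg K1 x (a + b) (f * g) := by
  obtain ⟨p, h1, h2⟩ := hf
  obtain ⟨q, h3, h4⟩ := hg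
  refine ⟨p * q, by rw [map_mul, h1, h3], ?_⟩
  have h5 : ((p * q).natDegree : ℝ) ≤ (p.natDegree : ℝ) + (q.natDegree : ℝ) := by
    exact_mod_cast Polynomial.natDegree_mul_le
  linarith

theorem PDg.of_mem {f : Q} (h : f ∈ K1) {a : ℝ} (ha : 0 ≤ a) : PDg K1 x a f :=
  ⟨Polynomial.C ⟨f, h⟩, by rw [Polynomial.aeval_C]; rfl, by rw [Polynomial.natDegree_C]; simpa using ha⟩

theorem PDg.self : PDg K1 x 1 x :=
  ⟨Polynomial.X, Polynomial.aeval_X x, by
    have h := Polynomial.natDegree_X_le (R := K1)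
    exact_mod_cast h⟩

theorem PDg.pow {a : ℝ} {f : Q} (hf : PDg K1 x a f) (n : ℕ) : PDg K1 x (n * a) (f ^ n) := by
  induction n with
  | zero =>
    rw [pow_zero]
    exact PDg.of_mem K1.one_mem (by simp)
  | succ n ih =>
    rw [pow_succ]
    refine (ih.mul hf).mono (le_of_eq ?_)
    push_cast
    ring

theorem PDg.sum {ι : Type*} {a : ℝ} (ha : 0 ≤ a) (s : Finset ι) (f : ι → Q) (h : ∀ i ∈ s, PDg K1 x a (f i)) :
    PDg K1 x a (∑ i ∈ s, f i) := by
  classical
  induction s using Finset.induction_on with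
  | empty =>
    rw [Finset.sum_empty]
    exact PDg.of_mem K1.zero_mem ha
  | insert i s hi ih =>
    rw [Finset.sum_insert hi]
    exact (h i (mem_insert_self i s)).add (ih fun j hj => h j (mem_insert_of_mem hj))

theorem PDg.prod {ι : Type*} (s : Finset ι) (f : ι → Q) (a : ι → ℝ) (n : ι → ℕ)
    (h : ∀ i ∈ s, n i ≠ 0 → PDg K1 x (a i) (f i)) : PDg K1 x (∑ i ∈ s, (n i : ℝ) * a i) (∏ i ∈ s, f i ^ n i) := by
  classical
  induction s using Finset.induction_on with
  | empty =>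
    rw [Finset.sum_empty, Finset.prod_empty]
    exact PDg.of_mem K1.one_mem le_rfl
  | insert i s hi ih =>
    rw [Finset.sum_insert hi, Finset.prod_insert hi]
    refine PDg.mul ?_ (ih fun j hj => h j (mem_insert_of_mem hj))
    by_cases h0 : n i = 0
    · rw [h0, pow_zero]
      exact PDg.of_mem K1.one_mem (by simp)
    · exact (h i (mem_insert_self i s) h0).pow (n i)

/-- values of polynomials -/
theorem PDg.eval {σ : Type} [Fintype σ] {b : ℝ} (hb : 0 ≤ b) (P : MvPolynomial σ Q) (y : σ → Q) (wt : σ → ℝ)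
    (hP : ∀ m, P.coeff m ≠ 0 → P.coeff m ∈ K1) (hw : ∀ m, P.coeff m ≠ 0 → wgt wt m ≤ b)
    (hy : ∀ m, P.coeff m ≠ 0 → ∀ i, m i ≠ 0 → PDg K1 x (wt i) (y i)) : PDg K1 x b (MvPolynomial.eval y P) := by
  rw [MvPolynomial.eval_eq']
  refine PDg.sum hb _ _ fun m hm => ?_
  have hm' : P.coeff m ≠ 0 := MvPolynomial.mem_support_iff.mp hm
  have h1 := (PDg.of_mem (x := x) (hP m hm') le_rfl).mul (PDg.prod univ y wt m fun i _ hi => hy m hm' i hi)
  refine h1.mono ?_
  rw [zero_add]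
  exact hw m hm'

end deg

namespace CD

variable {S : Sp} {d N r : ℕ} {c : CD S d N r} {w : Fin N → ℝ} {z : Fin N} {ρ : ℝ}

/-- degrees of the box coordinates -/
theorem gam_PDg (hb : c.Bx w z) (hw : ∀ j, 0 < w j) {s : ℝ} (h0 : 0 ≤ s) (h1 : w z * s ≤ 1) (K1 : Subring (QS S))
    (x : QS S) (hR : ∀ j, PDg K1 x (w j) (c.R j)) (hq : ∀ i, PDg K1 x 1 (c.q i - c.q0 s i))
    (hF : ∀ j n, (c.F s j).coeff n ∈ K1) : ∀ j, PDg K1 x (w j) (c.γ s j) := by
  intro j
  induction hn : (univ.filter fun l => w l < w j).card using Nat.strong_induction_on generalizing j with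
  | _ n ih =>
    have e1 : c.γ s j = c.R j -
        MvPolynomial.eval (Sum.elim (fun i => c.q i - c.q0 s i) (c.γ s)) (c.F s j) := by
      have e2 := hb.fR s h0 h1 j
      linear_combination -e2
    rw [e1]
    refine (hR j).sub (PDg.eval (hw j).le _ _ (Sum.elim (fun _ => 1) w) (fun m _ => hF j m)
      (fun m hm => (hb.deg s j m hm).le) fun m hm a ha => ?_)
    rcases a with i | l
    · exact hq i
    · have hl : w l < w j := by
        refine lt_of_le_of_lt ?_ (hb.deg s j m hm)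
        have h2 : (1 : ℝ) ≤ (m (Sum.inr l) : ℝ) := by
          exact_mod_cast Nat.one_le_iff_ne_zero.mpr ha
        have h3 : (m (Sum.inr l) : ℝ) * w l ≤ wgt (Sum.elim (fun _ : Fin (d + 1) => (1 : ℝ)) w) m := by
          unfold wgt
          have h4 := Finset.single_le_sum (f := fun a => (m a : ℝ) * Sum.elim (fun _ : Fin (d + 1) => (1 : ℝ)) w a)
            (s := univ) (fun a _ => by
              refine mul_nonneg (Nat.cast_nonneg _) ?_
              rcases a with a | a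
              · exact zero_le_one
              · exact (hw a).le) (mem_univ (Sum.inr l))
          exact h4
        nlinarith [hw l]
      show PDg K1 x (w l) (c.γ s l)
      refine ih _ ?_ l rfl
      rw [← hn]
      apply Finset.card_lt_card
      rw [Finset.ssubset_iff_of_subset]
      · exact ⟨l, by simpa using hl, by simp⟩
      · intro a ha
        simp only [mem_filter, mem_univ, true_and] at ha ⊢
        exact ha.trans hl

/-- EXISTENCE OF THE TYPES OF THE ZOOM, with the weighted degrees -/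
theorem exists_ZTw (hl : c.Ln) (hb : c.Bx w z) (hW : Pool.Agent.Helper10.BLD.Wd c w) (hw1 : ∀ j, 1 < w j)
    (hwz : ∀ j, w j ≤ w z) {s : ℝ} (h0 : 0 ≤ s)
    (h1 : w z * s < 1) : ∃ (X : Fin (d + 1) → QS S) (Y : Fin N → QS S) (A : Fin r → Fin (d + 1) → QS S) (g' : ℕ)
      (Cf : Fin r → Fin N → Fin (g' + 1) → QS S), c.ZT w s X Y A g' Cf ∧
        ∀ i j (k : Fin (g' + 1)), w j < ((k : ℕ) : ℝ) → Cf i j k = 0 := by
  classical
  have hw0 : ∀ j, 0 < w j := fun j => zero_lt_one.trans (hw1 j)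
  have hs1 : s < 1 := by nlinarith [hw1 z]
  have l0 : ∀ j, 0 ≤ w j * s := fun j => mul_nonneg (hw0 j).le h0
  have l1 : ∀ j, w j * s ≤ 1 := fun j => (mul_le_mul_of_nonneg_right (hwz j) h0).trans h1.le
  choose X hX hXd using fun i => exists_div' h0 hs1.le (hb.fq s h0 h1.le i)
  choose Y hY hYd using fun j => exists_div' (l0 j) (l1 j) (hb.fγ s h0 h1.le j)
  have hAm : ∀ i j, c.a i j - c.q0 s j + c.q0 s 0 * c.u i j ∈ Id S s := by
    intro i j
    have e1 : c.a i j - c.q0 s j + c.q0 s 0 * c.u i j = (c.q j - c.q0 s j) - (c.q 0 - c.q0 s 0) * c.u i j := by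
      rw [hl.line i j]
      ring
    rw [e1]
    exact (Id S s).sub_mem (hb.fq s h0 h1.le j) ((Id S s).mul_mem_right _ (hb.fq s h0 h1.le 0))
  choose A hA hAd using fun i j => exists_div' h0 hs1.le (hAm i j)
  -- the curve in the zoomed height
  have key : ∀ i j, PDg (Kn S 1 le_rfl (c.xi i ⊔ c.K s)) (X 0) (w j) (c.γ s j) := by
    intro i
    obtain ⟨K1, hK1⟩ : ∃ K1, K1 = Kn S 1 le_rfl (c.xi i ⊔ c.K s) := ⟨_, rfl⟩
    rw [← hK1]
    have hk : ∀ f : QS S, dg f 1 ≤ c.xi i ⊔ c.K s → f ∈ K1 := fun f hf => by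
      rw [hK1]
      exact hf
    have hq0 : ∀ a, c.q0 s a ∈ K1 := fun a => hk _ (((hb.litq s a).dg_le (hb.bdd s) le_rfl).trans le_sup_right)
    have hsc : sc S s ∈ K1 := hk _ ((Helper57.TA.dg_sc _ _).le.trans bot_le)
    have ht : PDg K1 (X 0) 1 (c.q 0) := by
      have e1 : c.q 0 = c.q0 s 0 + sc S s * X 0 := by
        rw [← hX 0]
        ring
      rw [e1]
      refine (PDg.of_mem (hq0 0) zero_le_one).add ?_
      have h2 := (PDg.of_mem (x := X 0) hsc le_rfl).mul (PDg.self (K1 := K1) (x := X 0))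
      rwa [zero_add] at h2
    have hau : ∀ a, c.a i a ∈ K1 ∧ c.u i a ∈ K1 := fun a =>
      ⟨hk _ (((dg_le_vd (c.a i) 1 a).trans (hl.a_le i)).trans (le_sup_left.trans le_sup_left)),
        hk _ (((dg_le_vd (c.u i) 1 a).trans (hl.u_le i)).trans (le_sup_left.trans le_sup_left))⟩
    have hR : ∀ j, PDg K1 (X 0) (w j) (c.R j) := by
      intro j
      rw [hl.curve i j]
      unfold pe
      refine PDg.sum (hw0 j).le _ _ fun k _ => ?_
      by_cases hk2 : w j < ((k : ℕ) : ℝ)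
      · rw [hW i j k hk2, zero_mul]
        exact PDg.of_mem K1.zero_mem (hw0 j).le
      · have h2 := (PDg.of_mem (x := X 0) (hk (c.cf i j k) (((dg_le_vd (c.cv i) 1 (j, k)).trans
          le_sup_right).trans le_sup_left)) le_rfl).mul (ht.pow k)
        refine h2.mono ?_
        push Not at hk2
        linarith
    have hq : ∀ a, PDg K1 (X 0) 1 (c.q a - c.q0 s a) := by
      intro a
      rw [hl.line i a]
      refine (PDg.add (PDg.of_mem (hau a).1 zero_le_one) ?_).sub (PDg.of_mem (hq0 a) zero_le_one)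
      have h2 := ht.mul (PDg.of_mem (x := X 0) (hau a).2 le_rfl)
      rwa [add_zero] at h2
    have hF : ∀ j n, (c.F s j).coeff n ∈ K1 := fun j n =>
      hk _ (((hb.litF s j n).dg_le (hb.bdd s) le_rfl).trans le_sup_right)
    exact gam_PDg hb hw0 h0 h1.le K1 (X 0) hR hq hF
  choose p hp hpw using key
  obtain ⟨g', hg'⟩ : ∃ g' : ℕ, ∀ i j, (p i j).natDegree ≤ g' :=
    ⟨univ.sup fun x : Fin r × Fin N => (p x.1 x.2).natDegree, fun i j =>
      Finset.le_sup (f := fun x : Fin r × Fin N => (p x.1 x.2).natDegree) (mem_univ (i, j))⟩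
  obtain ⟨cs, hcs⟩ : ∃ cs : ∀ (i : Fin r) (j : Fin N), Fin (g' + 1) → QS S, cs = fun i j (k : Fin (g' + 1)) =>
      ((p i j).coeff (k : ℕ) : QS S) := ⟨_, rfl⟩
  have hcd : ∀ i j k, dg (cs i j k) 1 ≤ c.xi i ⊔ c.K s := by
    intro i j k
    rw [hcs]
    exact ((p i j).coeff k).2
  have hcz : ∀ i j (k : Fin (g' + 1)), w j < ((k : ℕ) : ℝ) → cs i j k = 0 := by
    intro i j k hk
    have h2 : (p i j).natDegree < (k : ℕ) := by
      have h3 := lt_of_le_of_lt (hpw i j) hk
      exact_mod_cast h3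
    rw [hcs]
    show (((p i j).coeff (k : ℕ) : Kn S 1 le_rfl (c.xi i ⊔ c.K s)) : QS S) = 0
    rw [Polynomial.coeff_eq_zero_of_natDegree_lt h2]
    rfl
  have hpe : ∀ i j, c.γ s j = pe (cs i j) (X 0) := by
    intro i j
    rw [← hp i j, Polynomial.aeval_eq_sum_range' (Nat.lt_succ_of_le (hg' i j)), Finset.sum_range, hcs]
    unfold pe
    refine Finset.sum_congr rfl fun k _ => ?_
    rfl
  have hcm : ∀ i j k, cs i j k ∈ Id S (w j * s) := by
    intro i j k
    have hl0 : (0 : ℝ) < 1 - s := by linarith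
    refine top_zero (cs i j) (X 0) hl0 (by linarith) (le_antisymm ((h_le_H _ _).trans (H_dg_le _ hl0.le)) ?_) (l1 j)
      (by rw [← hpe i j]; exact hb.fγ s h0 h1.le j) k
    have e1 : vd (cs i j) 1 ≤ c.xi i ⊔ c.K s := by
      rw [vd_le]
      exact hcd i j
    refine le_trans ?_ (h_anti e1)
    have e2 := time_K hl hb h0 h1.le hs1.le i
    have e3 : dg (X 0) (1 - s) = dg (c.q 0 - c.q0 s 0) 1 := by
      rw [hX 0, dg_scl (X 0) h0 le_rfl]
    rw [e3]
    have e4 : h (dg (c.q 0) 1) (c.xi i ⊔ c.K s) ≤ h (dg (c.q 0 - c.q0 s 0) 1) (c.xi i ⊔ c.K s) := by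
      have e5 : dg (c.q 0) 1 ≤ dg (c.q 0 - c.q0 s 0) 1 ⊔ (c.xi i ⊔ c.K s) := by
        have e6 : c.q 0 = (c.q 0 - c.q0 s 0) + c.q0 s 0 := by ring
        have e7 := dg_add_le (c.q 0 - c.q0 s 0) (c.q0 s 0) (le_refl (1 : ℝ))
        rw [← e6] at e7
        refine e7.trans (sup_le_sup_left ?_ _)
        exact ((hb.litq s 0).dg_le (hb.bdd s) le_rfl).trans le_sup_right
      have e8 : h (dg (c.q 0 - c.q0 s 0) 1 ⊔ (c.xi i ⊔ c.K s)) (c.xi i ⊔ c.K s) =
          h (dg (c.q 0 - c.q0 s 0) 1) (c.xi i ⊔ c.K s) := by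
        unfold h
        rw [sup_assoc, sup_idem]
      rw [← e8]
      exact h_mono e5
    linarith
  have hdiv : ∀ i j (k : Fin (g' + 1)), ∃ f : QS S, cs i j k = sc S (w j * s) * f ∧
      dg f 1 ≤ dg (cs i j k) 1 ∧ (cs i j k = 0 → f = 0) := by
    intro i j k
    by_cases hz : cs i j k = 0
    · refine ⟨0, ?_, ?_, fun _ => rfl⟩
      · rw [hz, mul_zero]
      · rw [hz]
    · obtain ⟨f, hf1, hf2⟩ := exists_div' (l0 j) (l1 j) (hcm i j k)
      exact ⟨f, hf1, hf2, fun h => absurd h hz⟩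
  choose Cf hC hCd hCz using hdiv
  refine ⟨X, Y, A, g', Cf, ⟨hX, hXd, hY, hYd, hA, ?_, ?_, ?_⟩, fun i j k hk => hCz i j k (hcz i j k hk)⟩
  · intro i j
    refine (hAd i j).trans ?_
    apply (Kn S 1 le_rfl (c.b i ⊔ c.K s)).add_mem
    · apply (Kn S 1 le_rfl (c.b i ⊔ c.K s)).sub_mem
      · exact ((dg_le_vd (c.a i) 1 j).trans (hl.a_le i)).trans le_sup_left
      · exact ((hb.litq s j).dg_le (hb.bdd s) le_rfl).trans le_sup_right
    · apply (Kn S 1 le_rfl (c.b i ⊔ c.K s)).mul_mem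
      · exact ((hb.litq s 0).dg_le (hb.bdd s) le_rfl).trans le_sup_right
      · exact ((dg_le_vd (c.u i) 1 j).trans (hl.u_le i)).trans le_sup_left
  · intro i j
    rw [hpe i j]
    unfold pe
    rw [Finset.mul_sum]
    refine Finset.sum_congr rfl fun k _ => ?_
    rw [hC i j k]
    ring
  · exact fun i j k => (hCd i j k).trans (hcd i j k)

end CD

end

end Pool.Agent.Helper13.AM
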